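import Mathlib
import Pool.Agent.Lib.MP_7b7e48_nt.GT.FundLemma

/-!
# A two-dimensional lower bound sieve for pairs `t`, `t + d`
-/

open Finset Filter

namespace Pool.Agent.Lib.MP_45349e_nt.AA

open Pool.Agent.Lib.GT (fund_lemma V pr)

theorem V_pos' (z : ℕ) : 0 < V z := by
  unfold V
  refine Finset.prod_pos fun p hp => ?_
  have h2 : (2 : ℝ) ≤ p := by exact_mod_cast (Finset.mem_filter.mp hp).2.two_le
  have : 1 / (p : ℝ) ≤ 1 / 2 := one_div_le_one_div_of_le (by norm_num) h2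
  linarith

theorem V_inv_eq' (z : ℕ) :
    (V z)⁻¹ = ∏ p ∈ (Finset.Icc 1 z).filter Nat.Prime, (1 - (1 : ℝ) / p)⁻¹ := by
  unfold V
  rw [Finset.prod_inv_distrib]
  congr 1
  refine Finset.prod_congr ?_ fun _ _ => rfl
  ext p
  rw [pr, mem_filter, mem_filter, mem_range, mem_Icc]
  constructor
  · rintro ⟨h1, h2⟩; exact ⟨⟨h2.one_le, by omega⟩, h2⟩
  · rintro ⟨⟨h1, h2⟩, h3⟩; exact ⟨by omega, h3⟩

/-- `1 / V z ≤ C log z` -/
theorem V_inv_le' : ∃ C : ℝ, 0 < C ∧ ∀ z : ℕ, 2 ≤ z → (V z)⁻¹ ≤ C * Real.log z := by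
  obtain ⟨C, hC, h⟩ := Pool.Agent.Lib.Sieve.mertens_product_upper
  refine ⟨C, hC, fun z hz => ?_⟩
  rw [V_inv_eq']
  exact h z hz

theorem prod_two_ge (w : ℕ → ℕ) (hw : ∀ r, w r ≤ 2) (hw2 : w 2 ≤ 1) :
    ∀ M : ℕ, (1 / 2) * (((M : ℝ) + 2) / ((M : ℝ) + 1)) * V (M + 2) ^ 2 ≤
      ∏ r ∈ pr (M + 2), (1 - (w r : ℝ) / r) := by
  intro M
  induction M with
  | zero =>
    have hpr : pr (0 + 2) = {2} := by decide
    unfold V
    rw [hpr, Finset.prod_singleton, Finset.prod_singleton]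
    have : (w 2 : ℝ) ≤ 1 := by exact_mod_cast hw2
    push_cast
    norm_num
    linarith
  | succ M ih =>
    have hM : (0 : ℝ) ≤ M := Nat.cast_nonneg M
    by_cases hp : (M + 3).Prime
    · have hpr : pr (M + 1 + 2) = insert (M + 3) (pr (M + 2)) := by
        unfold pr
        rw [show M + 1 + 2 + 1 = (M + 2 + 1) + 1 by ring, Finset.range_add_one,
          Finset.filter_insert, if_pos (by exact hp)]
      have hnot : M + 3 ∉ pr (M + 2) := by
        unfold pr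
        rw [mem_filter, mem_range]
        omega
      have hV : V (M + 1 + 2) = (1 - 1 / ((M + 3 : ℕ) : ℝ)) * V (M + 2) := by
        unfold V
        rw [hpr, Finset.prod_insert hnot]
      rw [hV, hpr, Finset.prod_insert hnot]
      have h1 : (1 - 2 / ((M + 3 : ℕ) : ℝ)) ≤ (1 - (w (M + 3) : ℝ) / ((M + 3 : ℕ) : ℝ)) := by
        have h2 : (w (M + 3) : ℝ) ≤ 2 := by exact_mod_cast hw (M + 3)
        have h3 : (w (M + 3) : ℝ) / ((M + 3 : ℕ) : ℝ) ≤ 2 / ((M + 3 : ℕ) : ℝ) :=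
          div_le_div_of_nonneg_right h2 (by positivity)
        linarith
      have h4 : 0 ≤ 1 - 2 / ((M + 3 : ℕ) : ℝ) := by
        rw [sub_nonneg, div_le_one (by positivity)]
        push_cast
        linarith
      have h5 : 0 ≤ (1 / 2) * (((M : ℝ) + 2) / ((M : ℝ) + 1)) * V (M + 2) ^ 2 := by positivity
      calc (1 / 2) * ((((M + 1 : ℕ) : ℝ) + 2) / (((M + 1 : ℕ) : ℝ) + 1)) *
            ((1 - 1 / ((M + 3 : ℕ) : ℝ)) * V (M + 2)) ^ 2
          = (1 - 2 / ((M + 3 : ℕ) : ℝ)) *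
            ((1 / 2) * (((M : ℝ) + 2) / ((M : ℝ) + 1)) * V (M + 2) ^ 2) := by
            push_cast
            field_simp
            ring
        _ ≤ (1 - (w (M + 3) : ℝ) / ((M + 3 : ℕ) : ℝ)) *
            ∏ r ∈ pr (M + 2), (1 - (w r : ℝ) / r) :=
            mul_le_mul h1 ih h5 (h4.trans h1)
    · have hpr : pr (M + 1 + 2) = pr (M + 2) := by
        unfold pr
        rw [show M + 1 + 2 + 1 = (M + 2 + 1) + 1 by ring, Finset.range_add_one,
          Finset.filter_insert, if_neg (by exact hp)]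
      have hV : V (M + 1 + 2) = V (M + 2) := by
        unfold V
        rw [hpr]
      rw [hV, hpr]
      refine le_trans ?_ ih
      refine mul_le_mul_of_nonneg_right ?_ (by positivity)
      refine mul_le_mul_of_nonneg_left ?_ (by norm_num)
      push_cast
      rw [div_le_div_iff₀ (by positivity) (by positivity)]
      nlinarith

theorem prod_two_ge' (w : ℕ → ℕ) (hw : ∀ r, w r ≤ 2) (hw2 : w 2 ≤ 1) (y : ℕ) (hy : 2 ≤ y) :
    (1 / 2) * V y ^ 2 ≤ ∏ r ∈ pr y, (1 - (w r : ℝ) / r) := by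
  obtain ⟨M, rfl⟩ : ∃ M, y = M + 2 := ⟨y - 2, by omega⟩
  refine le_trans ?_ (prod_two_ge w hw hw2 M)
  have hM : (0 : ℝ) ≤ M := Nat.cast_nonneg M
  have h1 : 1 ≤ ((M : ℝ) + 2) / ((M : ℝ) + 1) := by
    rw [le_div_iff₀ (by positivity)]
    linarith
  nlinarith [sq_nonneg (V (M + 2))]

theorem mod_eq_iff (r : ℕ) (hr : 0 < r) (t : ℕ) (c : ℤ) :
    t % r = (c % (r : ℤ)).toNat ↔ (r : ℤ) ∣ (t : ℤ) - c := by
  have hr0 : (0 : ℤ) < r := by exact_mod_cast hr
  have h1 : (((c % (r : ℤ)).toNat : ℕ) : ℤ) = c % (r : ℤ) :=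
    Int.toNat_of_nonneg (Int.emod_nonneg _ hr0.ne')
  constructor
  · intro h
    have h2 : ((t % r : ℕ) : ℤ) = c % (r : ℤ) := by rw [h, h1]
    rw [Int.natCast_mod] at h2
    exact Int.ModEq.dvd (Int.ModEq.symm h2)
  · intro h
    have h2 : (t : ℤ) % r = c % r := (Int.emod_emod_of_dvd _ (dvd_refl _)).symm.trans (by
      rw [Int.emod_emod_of_dvd _ (dvd_refl _)]
      exact Int.ModEq.symm (Int.modEq_iff_dvd.mpr h))
    have h3 : ((t % r : ℕ) : ℤ) = (((c % (r : ℤ)).toNat : ℕ) : ℤ) := by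
      rw [h1, Int.natCast_mod, h2]
    exact_mod_cast h3

/-- the set of `t < N` such that `t` and `t + d` avoid the classes `a r` for all primes `r ≤ y` -/
def Sv (y N d : ℕ) (a : ℕ → ℤ) : Finset ℕ :=
  (range N).filter (fun t => ∀ r ∈ pr y, ¬ (r : ℤ) ∣ (t : ℤ) - a r ∧ ¬ (r : ℤ) ∣ (t : ℤ) + d - a r)

theorem sieve_lower : ∃ c : ℝ, 0 < c ∧ ∃ C₀ : ℕ, 1 ≤ C₀ ∧ ∃ y₀ : ℕ, ∀ y : ℕ, y₀ ≤ y →
    ∀ N : ℕ, y ^ C₀ ≤ N → ∀ d : ℕ, Even d → ∀ a : ℕ → ℤ,
      c * N / (Real.log y) ^ 2 ≤ ((Sv y N d a).card : ℝ) := by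
  classical
  obtain ⟨K, hK1, hfl⟩ := fund_lemma
  obtain ⟨C, hC, hV⟩ := V_inv_le'
  have hlim : Tendsto (fun b : ℕ => (K : ℝ) * (1 / 2) ^ b) atTop (nhds ((K : ℝ) * 0)) :=
    (tendsto_pow_atTop_nhds_zero_of_lt_one (by norm_num) (by norm_num)).const_mul _
  rw [mul_zero] at hlim
  obtain ⟨b, hb1, hb⟩ : ∃ b : ℕ, 1 ≤ b ∧ (K : ℝ) * (1 / 2) ^ b ≤ 1 / 2 := by
    have h1 := (hlim.eventually (Iic_mem_nhds (by norm_num : (0 : ℝ) < 1 / 2))).and
      (eventually_ge_atTop 1)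
    obtain ⟨b, hb1, hb2⟩ := h1.exists
    exact ⟨b, hb2, hb1⟩
  have hlog : ∀ᶠ y : ℕ in atTop, 8 * C ^ 2 * (Real.log y) ^ 2 ≤ (y : ℝ) := by
    have h1 := (Real.isLittleO_pow_log_id_atTop (n := 2)).bound
      (show (0 : ℝ) < 1 / (8 * C ^ 2) by positivity)
    have h2 := tendsto_natCast_atTop_atTop (R := ℝ) |>.eventually h1
    filter_upwards [h2] with y hy
    rw [Real.norm_of_nonneg (by positivity), id, Real.norm_of_nonneg (by positivity)] at hy
    have h3 : 0 < 8 * C ^ 2 := by positivity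
    have h4 := mul_le_mul_of_nonneg_left hy h3.le
    have h5 : 8 * C ^ 2 * (1 / (8 * C ^ 2) * (y : ℝ)) = y := by
      field_simp
    linarith
  obtain ⟨y₀, hy₀⟩ := eventually_atTop.mp hlog
  refine ⟨1 / (8 * C ^ 2), by positivity, K * b + 1, by omega, max y₀ 3, ?_⟩
  intro y hy N hN d hd a
  have hy3 : 3 ≤ y := (le_max_right _ _).trans hy
  have hyy := hy₀ y ((le_max_left _ _).trans hy)
  have hyr : (3 : ℝ) ≤ y := by exact_mod_cast hy3
  have hlogy : 0 < Real.log y := Real.log_pos (by linarith)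
  set Ω : ℕ → Finset ℕ := fun r => {(a r % (r : ℤ)).toNat, ((a r - d) % (r : ℤ)).toNat} with hΩ
  have hP : ∀ r ∈ pr y, r.Prime ∧ r ≤ y := by
    intro r hr
    have := mem_filter.mp hr
    rw [mem_range] at this
    exact ⟨this.2, by omega⟩
  have hcard2 : ∀ r, (Ω r).card ≤ 2 := fun r => Finset.card_le_two
  have hcard1 : (Ω 2).card ≤ 1 := by
    have h1 : (a 2 - d) % ((2 : ℕ) : ℤ) = a 2 % ((2 : ℕ) : ℤ) := by
      obtain ⟨e, he⟩ := hd
      subst he
      push_cast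
      omega
    simp only [hΩ]
    rw [h1]
    simp
  have hΩ' : ∀ r ∈ pr y, (Ω r).card ≤ 2 ∧ (Ω r).card < r ∧ ∀ x ∈ Ω r, x < r := by
    intro r hr
    have hr2 := (hP r hr).1.two_le
    refine ⟨hcard2 r, ?_, ?_⟩
    · rcases Nat.lt_or_ge 2 r with h | h
      · exact lt_of_le_of_lt (hcard2 r) h
      · have : r = 2 := by omega
        subst this
        omega
    · intro x hx
      have hr0 : (0 : ℤ) < r := by exact_mod_cast (by omega : 0 < r)
      simp only [hΩ, Finset.mem_insert, Finset.mem_singleton] at hx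
      rcases hx with rfl | rfl
      · have := Int.emod_lt_of_pos (a r) hr0
        have h0 := Int.emod_nonneg (a r) hr0.ne'
        omega
      · have := Int.emod_lt_of_pos (a r - d) hr0
        have h0 := Int.emod_nonneg (a r - d) hr0.ne'
        omega
  have hmain := hfl b hb1 y (by omega) (pr y) hP Ω hΩ' 0 N
  have hset : (Finset.range N).filter (fun k => ∀ r ∈ pr y, (0 + k) % r ∉ Ω r) = Sv y N d a := by
    unfold Sv
    refine Finset.filter_congr fun t _ => ?_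
    refine forall_congr' fun r => forall_congr' fun hr => ?_
    have hr0 : 0 < r := (hP r hr).1.pos
    simp only [hΩ, Finset.mem_insert, Finset.mem_singleton, zero_add]
    rw [mod_eq_iff r hr0, mod_eq_iff r hr0]
    have h1 : (t : ℤ) - (a r - d) = (t : ℤ) + d - a r := by ring
    rw [h1]
    tauto
  rw [hset] at hmain
  set W := ∏ r ∈ pr y, (1 - ((Ω r).card : ℝ) / r) with hW
  have hWlow : (1 / 2) * V y ^ 2 ≤ W :=
    prod_two_ge' (fun r => (Ω r).card) hcard2 hcard1 y (by omega)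
  have hVy := hV y (by omega)
  have hV0 := V_pos' y
  have hVlow : 1 / (C * Real.log y) ≤ V y := by
    rw [div_le_iff₀ (by positivity)]
    have h1 := mul_le_mul_of_nonneg_left hVy hV0.le
    rw [mul_inv_cancel₀ hV0.ne'] at h1
    exact h1
  have hVsq : 1 / (C * Real.log y) ^ 2 ≤ V y ^ 2 := by
    have h1 : 1 / (C * Real.log y) ^ 2 = (1 / (C * Real.log y)) ^ 2 := by
      rw [div_pow, one_pow]
    rw [h1]
    exact pow_le_pow_left₀ (by positivity) hVlow 2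
  have hNr : (0 : ℝ) ≤ N := Nat.cast_nonneg N
  have hpowN : (y : ℝ) ^ (K * b) * y ≤ N := by
    have : ((y ^ (K * b + 1) : ℕ) : ℝ) ≤ N := by exact_mod_cast hN
    push_cast at this
    rwa [pow_succ] at this
  have hy0 : (0 : ℝ) < y := by linarith
  have hpow2 : (y : ℝ) ^ (K * b) ≤ N * (1 / (8 * C ^ 2 * (Real.log y) ^ 2)) := by
    have h1 : (y : ℝ) ^ (K * b) ≤ N / y := by
      rw [le_div_iff₀ hy0]; exact hpowN
    have h2 : (N : ℝ) / y ≤ N / (8 * C ^ 2 * (Real.log y) ^ 2) :=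
      div_le_div_of_nonneg_left hNr (by positivity) hyy
    rw [mul_one_div]
    exact h1.trans h2
  have h3 := (abs_le.mp hmain).1
  have hNW : 0 ≤ (N : ℝ) * W := mul_nonneg hNr (le_trans (by positivity) hWlow)
  have h4 : (K : ℝ) * (1 / 2) ^ b * (N * W) ≤ 1 / 2 * (N * W) :=
    mul_le_mul_of_nonneg_right hb hNW
  have h5 : (N : ℝ) * ((1 / 2) * (1 / (C * Real.log y) ^ 2)) ≤ N * W := by
    refine mul_le_mul_of_nonneg_left ?_ hNr
    linarith
  have h6 : (1 / (8 * C ^ 2)) * (N : ℝ) / (Real.log y) ^ 2 =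
      N * (1 / (8 * C ^ 2 * (Real.log y) ^ 2)) := by
    field_simp
  have h7 : (N : ℝ) * ((1 / 2) * (1 / (C * Real.log y) ^ 2)) =
      4 * (N * (1 / (8 * C ^ 2 * (Real.log y) ^ 2))) := by
    field_simp
    ring
  rw [h6]
  linarith

end Pool.Agent.Lib.MP_45349e_nt.AA
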