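import Mathlib

/-!
# Coverings by residue classes and gaps between totatives of a primorial
-/

open Finset

namespace Pool.Agent.Lib.MP_45349e_nt.AA

/-- the `i`-th prime (`pn 0 = 2`) -/
noncomputable def pn (i : ℕ) : ℕ := Nat.nth Nat.Prime i

theorem pn_prime (i : ℕ) : (pn i).Prime := Nat.prime_nth_prime i

theorem pn_strictMono : StrictMono pn := Nat.nth_strictMono Nat.infinite_setOfPred_prime

theorem pn_zero : pn 0 = 2 := Nat.nth_prime_zero_eq_two

theorem add_two_le_pn (i : ℕ) : i + 2 ≤ pn i := by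
  induction i with
  | zero => rw [pn_zero]
  | succ n ih =>
    have := pn_strictMono (Nat.lt_add_one n)
    omega

theorem three_le_pn {i : ℕ} (hi : 1 ≤ i) : 3 ≤ pn i := by
  have := add_two_le_pn i
  omega

/-- the product of the first `k` primes -/
noncomputable def pml (k : ℕ) : ℕ := ∏ i ∈ Finset.range k, Nat.nth Nat.Prime i

/-- the integers in `[1, n)` coprime to `n`, where `n` is the product of the first `k` primes -/
noncomputable def tot (k : ℕ) : Finset ℕ :=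
  (Finset.Ico 1 (pml k)).filter (fun a => Nat.Coprime a (pml k))

/-- the set of gaps between consecutive elements of `tot k` -/
noncomputable def gaps (k : ℕ) : Finset ℕ :=
  ((tot k ×ˢ tot k).filter
    (fun p : ℕ × ℕ => p.1 < p.2 ∧ ∀ x ∈ tot k, ¬ (p.1 < x ∧ x < p.2))).image
    (fun p : ℕ × ℕ => p.2 - p.1)

theorem mem_gaps {k d : ℕ} : d ∈ gaps k ↔ 0 < d ∧ ∃ a : ℕ, 1 ≤ a ∧ a + d < pml k ∧ Nat.Coprime a (pml k) ∧
    Nat.Coprime (a + d) (pml k) ∧ ∀ x : ℕ, a < x → x < a + d → ¬ Nat.Coprime x (pml k) := by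
  unfold gaps tot
  simp only [mem_image, mem_filter, mem_product, mem_Ico, Prod.exists]
  constructor
  · rintro ⟨a, b, ⟨⟨⟨⟨h1, h2⟩, h3⟩, ⟨h4, h5⟩, h6⟩, h7, h8⟩, h9⟩
    refine ⟨by omega, a, h1, by omega, h3, ?_, ?_⟩
    · have : a + d = b := by omega
      rw [this]; exact h6
    · intro x hx1 hx2 hc
      exact h8 x ⟨⟨by omega, by omega⟩, hc⟩ ⟨hx1, by omega⟩
  · rintro ⟨hd, a, h1, h2, h3, h4, h5⟩
    refine ⟨a, a + d, ⟨⟨⟨⟨h1, by omega⟩, h3⟩, ⟨by omega, h2⟩, h4⟩, by omega, ?_⟩, by omega⟩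
    rintro x ⟨_, hx⟩ ⟨hx1, hx2⟩
    exact h5 x hx1 hx2 hx

theorem coprime_pml {k x : ℕ} : Nat.Coprime x (pml k) ↔ ∀ i < k, ¬ pn i ∣ x := by
  unfold pml
  rw [Nat.coprime_prod_right_iff]
  constructor
  · intro h i hi hd
    have := h i (mem_range.mpr hi)
    rw [Nat.coprime_comm] at this
    exact ((pn_prime i).coprime_iff_not_dvd.mp this) hd
  · intro h i hi
    rw [Nat.coprime_comm]
    exact (pn_prime i).coprime_iff_not_dvd.mpr (h i (mem_range.mp hi))

theorem pml_pos (k : ℕ) : 0 < pml k :=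
  Finset.prod_pos fun i _ => (Nat.prime_nth_prime i).pos

theorem pn_dvd_pml {k i : ℕ} (hi : i < k) : pn i ∣ pml k :=
  Finset.dvd_prod_of_mem _ (mem_range.mpr hi)

/-- the open interval `(0, L)` is covered by one residue class for each of the first `k` primes -/
def Cov (k L : ℕ) : Prop :=
  ∃ a : ℕ → ℤ, ∀ j : ℕ, 0 < j → j < L → ∃ i < k, (pn i : ℤ) ∣ (j : ℤ) - a i

/-- covering with both end points left uncovered, except for at most `s` points -/
def Qd (k s d : ℕ) : Prop :=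
  ∃ a : ℕ → ℤ, (∀ i < k, ¬ (pn i : ℤ) ∣ 0 - a i ∧ ¬ (pn i : ℤ) ∣ (d : ℤ) - a i) ∧
    ∃ E : Finset ℕ, E.card ≤ s ∧
      ∀ j : ℕ, 0 < j → j < d → j ∉ E → ∃ i < k, (pn i : ℤ) ∣ (j : ℤ) - a i

theorem cov_of_mem_gaps {k L : ℕ} (h : L ∈ gaps k) : Cov k L := by
  rw [mem_gaps] at h
  obtain ⟨_, a, _, _, _, _, h5⟩ := h
  refine ⟨fun _ => -(a : ℤ), fun j hj0 hjL => ?_⟩
  have h6 := h5 (a + j) (by omega) (by omega)
  rw [coprime_pml] at h6
  push Not at h6
  obtain ⟨i, hi, hd⟩ := h6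
  refine ⟨i, hi, ?_⟩
  have : (j : ℤ) - -(a : ℤ) = ((a + j : ℕ) : ℤ) := by push_cast; ring
  rw [this]
  exact_mod_cast hd

theorem mem_gaps_of_Qd {k d : ℕ} (hk : 1 ≤ k) (hd : 3 ≤ d) (h : Qd k 0 d) : d ∈ gaps k := by
  classical
  obtain ⟨a, hok, E, hE, hcov⟩ := h
  have hE0 : E = ∅ := Finset.card_eq_zero.mp (by omega)
  subst hE0
  obtain ⟨N, hN⟩ := Nat.chineseRemainderOfFinset (fun i => ((-(a i)) % (pn i : ℤ)).toNat) pn
    (Finset.range k) (fun i _ => (pn_prime i).ne_zero) (by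
      intro i _ j _ hij
      exact (Nat.coprime_primes (pn_prime i) (pn_prime j)).mpr
        (fun h => hij (pn_strictMono.injective h)))
  set n := pml k with hn
  have hn0 : 0 < n := pml_pos k
  set b := N % n with hb
  have hbn : b < n := Nat.mod_lt _ hn0
  have hkey : ∀ i < k, (pn i : ℤ) ∣ (b : ℤ) + a i := by
    intro i hi
    have hp : (0 : ℤ) < pn i := by exact_mod_cast (pn_prime i).pos
    have h1 : N ≡ ((-(a i)) % (pn i : ℤ)).toNat [MOD pn i] := hN i (mem_range.mpr hi)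
    have h2 : b ≡ N [MOD pn i] := (Nat.mod_modEq N n).of_dvd (pn_dvd_pml hi)
    have h3 := h2.trans h1
    have h4 := (Int.natCast_modEq_iff.mpr h3)
    rw [Int.toNat_of_nonneg (Int.emod_nonneg _ hp.ne')] at h4
    have h5 : (b : ℤ) ≡ -(a i) [ZMOD (pn i : ℤ)] := h4.trans (Int.mod_modEq _ _)
    have h6 := h5.symm.dvd
    have h7 : (b : ℤ) - -(a i) = (b : ℤ) + a i := by ring
    rwa [h7] at h6
  have hiff : ∀ i < k, ∀ j : ℕ, (pn i ∣ b + j ↔ (pn i : ℤ) ∣ (j : ℤ) - a i) := by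
    intro i hi j
    have h1 : ((b + j : ℕ) : ℤ) = ((b : ℤ) + a i) + ((j : ℤ) - a i) := by push_cast; ring
    rw [← Int.natCast_dvd_natCast, h1]
    exact (Int.dvd_add_right (hkey i hi))
  have hcop0 : Nat.Coprime b n := by
    rw [coprime_pml]
    intro i hi hdv
    have := (hiff i hi 0).mp (by simpa using hdv)
    exact (hok i hi).1 (by simpa using this)
  have hcopd : Nat.Coprime (b + d) n := by
    rw [coprime_pml]
    intro i hi hdv
    exact (hok i hi).2 ((hiff i hi d).mp hdv)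
  have hbet : ∀ x : ℕ, b < x → x < b + d → ¬ Nat.Coprime x n := by
    intro x hx1 hx2 hc
    rw [coprime_pml] at hc
    obtain ⟨j, rfl⟩ : ∃ j, x = b + j := ⟨x - b, by omega⟩
    obtain ⟨i, hi, hdv⟩ := hcov j (by omega) (by omega) (by simp)
    exact hc i hi ((hiff i hi j).mpr hdv)
  have hn2 : 2 ≤ n := Nat.le_of_dvd hn0 (by
    have := pn_dvd_pml (k := k) (i := 0) (by omega)
    rwa [pn_zero] at this)
  have hcop1 : Nat.Coprime (n - 1) n := by
    have : Nat.Coprime (n - 1) (n - 1 + 1) :=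
      Nat.coprime_self_add_right.mpr (Nat.coprime_one_right _)
    rwa [Nat.sub_add_cancel (by omega)] at this
  have hcop2 : Nat.Coprime (n + 1) n := by
    rw [Nat.coprime_comm]
    exact Nat.coprime_self_add_right.mpr (Nat.coprime_one_right _)
  have hb1 : 1 ≤ b := by
    by_contra hcon
    have h0 : b = 0 := by omega
    rw [h0, Nat.coprime_zero_left] at hcop0
    omega
  rw [mem_gaps]
  refine ⟨by omega, b, hb1, ?_, hcop0, hcopd, hbet⟩
  by_contra hcon
  rcases Nat.lt_or_ge b (n - 1) with h | h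
  · have hne : b + d ≠ n := by
      intro h9
      rw [h9, Nat.coprime_self] at hcopd
      omega
    exact hbet (n - 1) h (by omega) hcop1
  · exact hbet (n + 1) (by omega) (by omega) hcop2

/-- the gap `2` -/
theorem two_mem_gaps {k : ℕ} (hk : 3 ≤ k) : 2 ∈ gaps k := by
  obtain ⟨s, rfl⟩ : ∃ s, k = s + 1 := ⟨k - 1, by omega⟩
  set m := ∏ i ∈ Finset.range s, pn (i + 1) with hm
  have hprod : pml (s + 1) = 2 * m := by
    unfold pml
    rw [Finset.prod_range_succ', Nat.nth_prime_zero_eq_two, mul_comm]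
    rfl
  have hodd : m % 2 = 1 := by
    rw [← Nat.odd_iff, hm]
    refine Finset.prod_induction _ Odd (fun _ _ => Odd.mul) odd_one ?_
    intro i _
    refine (pn_prime (i + 1)).odd_of_ne_two ?_
    have := three_le_pn (i := i + 1) (by omega)
    omega
  have hdm : ∀ i : ℕ, 1 ≤ i → i < s + 1 → pn i ∣ m := by
    intro i hi1 his
    obtain ⟨t, rfl⟩ : ∃ t, i = t + 1 := ⟨i - 1, by omega⟩
    exact Finset.dvd_prod_of_mem (fun i => pn (i + 1)) (mem_range.mpr (by omega))
  have hm5 : 5 ≤ m := by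
    have h1 : pn 2 ∣ m := hdm 2 (by omega) (by omega)
    have h2 : 4 ≤ pn 2 := by have := add_two_le_pn 2; omega
    have h3 : 0 < m := Finset.prod_pos fun i _ => (pn_prime (i + 1)).pos
    have h4 := Nat.le_of_dvd h3 h1
    omega
  have hgen : ∀ i : ℕ, 1 ≤ i → i < s + 1 → ∀ j : ℕ, j ≤ m → pn i ∣ m - j → pn i ∣ j := by
    intro i hi1 his j hj h2
    have := Nat.dvd_sub (hdm i hi1 his) h2
    rwa [Nat.sub_sub_self hj] at this
  have hpow : ∀ i : ℕ, 1 ≤ i → ∀ e : ℕ, ¬ pn i ∣ 2 ^ e := by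
    intro i hi e h
    have h1 := (pn_prime i).dvd_of_dvd_pow h
    have h2 := Nat.le_of_dvd (by norm_num) h1
    have := three_le_pn hi
    omega
  rw [mem_gaps]
  refine ⟨by norm_num, m - 4, by omega, by omega, ?_, ?_, ?_⟩
  · rw [coprime_pml]
    intro i hi hdv
    rcases Nat.eq_zero_or_pos i with h | h
    · subst h
      rw [pn_zero] at hdv
      omega
    · exact hpow i h 2 (hgen i h hi 4 (by omega) hdv)
  · rw [coprime_pml]
    intro i hi hdv
    have h3 : m - 4 + 2 = m - 2 := by omega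
    rw [h3] at hdv
    rcases Nat.eq_zero_or_pos i with h | h
    · subst h
      rw [pn_zero] at hdv
      omega
    · exact hpow i h 1 (hgen i h hi 2 (by omega) hdv)
  · intro x hx1 hx2 hc
    rw [coprime_pml] at hc
    apply hc 0 (by omega)
    rw [pn_zero]
    omega

end Pool.Agent.Lib.MP_45349e_nt.AA
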