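import Mathlib
import Pool.Agent.Lib.MP_45349e_nt.AA.Cover

/-!
# Repairing a covering with new primes
-/

open Finset

namespace Pool.Agent.Lib.MP_45349e_nt.AA

/-- a residue class avoiding `0` and `d` -/
theorem exists_avoid (p : ℕ) (hp : 3 ≤ p) (d : ℤ) :
    ∃ c : ℤ, ¬ (p : ℤ) ∣ 0 - c ∧ ¬ (p : ℤ) ∣ d - c := by
  have h1 : ¬ (p : ℤ) ∣ 1 := by
    intro h
    have := Int.le_of_dvd (by norm_num) h
    omega
  have h2 : ¬ (p : ℤ) ∣ 2 := by
    intro h
    have := Int.le_of_dvd (by norm_num) h
    omega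
  by_cases h : (p : ℤ) ∣ d - 1
  · refine ⟨2, ?_, ?_⟩
    · rw [zero_sub, dvd_neg]; exact h2
    · intro h3
      apply h1
      have h4 : (1 : ℤ) = (d - 1) - (d - 2) := by ring
      rw [h4]
      exact dvd_sub h h3
  · refine ⟨1, ?_, h⟩
    rw [zero_sub, dvd_neg]; exact h1

theorem Qd.succ {k s d : ℕ} (hk : 1 ≤ k) (h : Qd k s d) : Qd (k + 1) s d := by
  obtain ⟨a, hok, E, hE, hcov⟩ := h
  obtain ⟨c, hc1, hc2⟩ := exists_avoid (pn k) (three_le_pn hk) d
  refine ⟨Function.update a k c, ?_, E, hE, ?_⟩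
  · intro i hi
    rcases Nat.lt_or_ge i k with h | h
    · rw [Function.update_of_ne (by omega)]
      exact hok i h
    · have : i = k := by omega
      subst this
      rw [Function.update_self]
      exact ⟨hc1, hc2⟩
  · intro j hj0 hjd hjE
    obtain ⟨i, hi, hdv⟩ := hcov j hj0 hjd hjE
    refine ⟨i, by omega, ?_⟩
    rw [Function.update_of_ne (by omega)]
    exact hdv

theorem Qd.mono {k s d : ℕ} (hk : 1 ≤ k) (h : Qd k s d) (r : ℕ) : Qd (k + r) s d := by
  induction r with
  | zero => exact h
  | succ r ih => exact Qd.succ (k := k + r) (by omega) ih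

/-- among three distinct large primes one divides neither of two small positive numbers -/
theorem exists_good (k u v : ℕ) (hu : 0 < u) (hv : 0 < v) (hu2 : u < pn k ^ 2)
    (hv2 : v < pn k ^ 2) : ∃ e < 3, ¬ pn (k + e) ∣ u ∧ ¬ pn (k + e) ∣ v := by
  have key : ∀ w : ℕ, 0 < w → w < pn k ^ 2 → ∀ e f : ℕ, e < f → pn (k + e) ∣ w →
      pn (k + f) ∣ w → False := by
    intro w hw hw2 e f hef he hf
    have hne : pn (k + e) ≠ pn (k + f) := (pn_strictMono (by omega)).ne
    have hcop : Nat.Coprime (pn (k + e)) (pn (k + f)) :=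
      (Nat.coprime_primes (pn_prime _) (pn_prime _)).mpr hne
    have h1 := hcop.mul_dvd_of_dvd_of_dvd he hf
    have h2 := Nat.le_of_dvd hw h1
    have h3 : pn k ≤ pn (k + e) := pn_strictMono.monotone (by omega)
    have h4 : pn k ≤ pn (k + f) := pn_strictMono.monotone (by omega)
    have h5 : pn k ^ 2 ≤ pn (k + e) * pn (k + f) := by
      rw [pow_two]; exact Nat.mul_le_mul h3 h4
    omega
  by_contra hcon
  push Not at hcon
  have c0 := hcon 0 (by norm_num)
  have c1 := hcon 1 (by norm_num)
  have c2 := hcon 2 (by norm_num)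
  by_cases a0 : pn (k + 0) ∣ u
  · have a1 : ¬ pn (k + 1) ∣ u := fun h => key u hu hu2 0 1 (by norm_num) a0 h
    have a2 : ¬ pn (k + 2) ∣ u := fun h => key u hu hu2 0 2 (by norm_num) a0 h
    exact key v hv hv2 1 2 (by norm_num) (c1 a1) (c2 a2)
  · have b0 := c0 a0
    by_cases a1 : pn (k + 1) ∣ u
    · have a2 : ¬ pn (k + 2) ∣ u := fun h => key u hu hu2 1 2 (by norm_num) a1 h
      exact key v hv hv2 0 2 (by norm_num) b0 (c2 a2)
    · exact key v hv hv2 0 1 (by norm_num) b0 (c1 a1)

theorem Qd.step {k s d : ℕ} (hk : 1 ≤ k) (hd : d < pn k ^ 2) (h : Qd k (s + 1) d) :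
    Qd (k + 3) s d := by
  classical
  obtain ⟨a, hok, E, hE, hcov⟩ := h
  rcases Nat.lt_or_ge E.card (s + 1) with hc | hc
  · exact Qd.mono hk ⟨a, hok, E, by omega, hcov⟩ 3
  · obtain ⟨j, hj⟩ : E.Nonempty := Finset.card_pos.mp (by omega)
    have hcard : (E.erase j).card ≤ s := by
      rw [Finset.card_erase_of_mem hj]; omega
    by_cases hjr : 0 < j ∧ j < d
    · obtain ⟨e, he3, he1, he2⟩ := exists_good k j (d - j) hjr.1 (by omega)
        (lt_trans hjr.2 hd) (by omega)
      choose c hc1 hc2 using fun i : ℕ => exists_avoid (pn (i + 1)) (three_le_pn (by omega)) d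
      refine ⟨fun i => if i < k then a i else if i = k + e then (j : ℤ) else c (i - 1), ?_,
        E.erase j, hcard, ?_⟩
      · intro i hi
        by_cases h1 : i < k
        · simp only [h1, if_true]
          exact hok i h1
        · by_cases h2 : i = k + e
          · subst h2
            simp only [h1, if_false, if_true]
            refine ⟨?_, ?_⟩
            · rw [zero_sub, dvd_neg]
              exact_mod_cast he1
            · intro h3
              apply he2
              have h4 : (d : ℤ) - (j : ℤ) = ((d - j : ℕ) : ℤ) := by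
                rw [Nat.cast_sub hjr.2.le]
              rw [h4] at h3
              exact_mod_cast h3
          · simp only [h1, h2, if_false]
            have h5 : i - 1 + 1 = i := by omega
            have h6 := hc1 (i - 1)
            have h7 := hc2 (i - 1)
            rw [h5] at h6 h7
            exact ⟨h6, h7⟩
      · intro x hx0 hxd hxE
        by_cases hxj : x = j
        · subst hxj
          refine ⟨k + e, by omega, ?_⟩
          simp
        · have hxE' : x ∉ E := fun h => hxE (Finset.mem_erase.mpr ⟨hxj, h⟩)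
          obtain ⟨i, hi, hdv⟩ := hcov x hx0 hxd hxE'
          refine ⟨i, by omega, ?_⟩
          simp only [hi, if_true]
          exact hdv
    · refine Qd.mono hk ⟨a, hok, E.erase j, hcard, ?_⟩ 3
      intro x hx0 hxd hxE
      refine hcov x hx0 hxd fun h => hxE (Finset.mem_erase.mpr ⟨?_, h⟩)
      rintro rfl
      exact hjr ⟨hx0, hxd⟩

theorem Qd.repair {s : ℕ} : ∀ {k d : ℕ}, 1 ≤ k → d < pn k ^ 2 → Qd k s d → Qd (k + 3 * s) 0 d := by
  induction s with
  | zero => intro k d _ _ h; exact h
  | succ s ih =>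
    intro k d hk hd h
    have h1 := Qd.step hk hd h
    have h2 : pn k ^ 2 ≤ pn (k + 3) ^ 2 :=
      Nat.pow_le_pow_left (pn_strictMono.monotone (by omega)) 2
    have h3 := ih (by omega) (lt_of_lt_of_le hd h2) h1
    have h4 : k + 3 * (s + 1) = k + 3 + 3 * s := by ring
    rw [h4]
    exact h3

/-- a covering with few holes gives a gap for slightly more primes -/
theorem mem_gaps_of_holes {k s d r : ℕ} (hk : 3 ≤ k) (hd2 : Even d) (hd0 : 0 < d)
    (hd : d < pn k ^ 2) (h : Qd k s d) (hr : 3 * s ≤ r) : d ∈ gaps (k + r) := by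
  rcases Nat.lt_or_ge d 3 with h3 | h3
  · have : d = 2 := by
      obtain ⟨e, he⟩ := hd2
      omega
    subst this
    exact two_mem_gaps (by omega)
  · have h1 := Qd.repair (by omega) hd h
    have h2 := Qd.mono (by omega) h1 (r - 3 * s)
    have h4 : k + 3 * s + (r - 3 * s) = k + r := by omega
    rw [h4] at h2
    exact mem_gaps_of_Qd (by omega) h3 h2

end Pool.Agent.Lib.MP_45349e_nt.AA
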