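import Mathlib
import Pool.Agent.Lib.MP_45349e_nt.AA.Step
import Pool.Agent.Lib.MP_45349e_nt.AA.Fund

/-!
# The total cost of freeing two points of a covered window
-/

open Finset Filter

namespace Pool.Agent.Lib.MP_45349e_nt.AA

open Pool.Agent.Lib.GT (pr)

theorem card_class_le (p : ℕ) (_hp : 0 < p) (N : ℕ) (c : ℤ) :
    ((range N).filter (fun t : ℕ => (p : ℤ) ∣ (t : ℤ) - c)).card ≤ N / p + 1 := by
  classical
  have h1 : ((range N).filter (fun t : ℕ => (p : ℤ) ∣ (t : ℤ) - c)).card ≤ (range (N / p + 1)).card := by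
    refine Finset.card_le_card_of_injOn (fun t : ℕ => t / p) ?_ ?_
    · intro t ht
      rw [Finset.mem_coe, mem_filter, mem_range] at ht
      rw [Finset.mem_coe, mem_range]
      have : t / p ≤ N / p := Nat.div_le_div_right ht.1.le
      show t / p < N / p + 1
      omega
    · intro s hs t ht hst
      rw [Finset.mem_coe, mem_filter] at hs ht
      have h1 : (p : ℤ) ∣ (s : ℤ) - t := by
        have := dvd_sub hs.2 ht.2
        have h2 : (s : ℤ) - c - ((t : ℤ) - c) = s - t := by ring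
        rwa [h2] at this
      have h2 : t ≡ s [MOD p] := by
        rw [← Int.natCast_modEq_iff]
        exact Int.modEq_iff_dvd.mpr h1
      have h3 : s / p = t / p := hst
      have h4 := Nat.div_add_mod s p
      have h5 := Nat.div_add_mod t p
      have h6 : t % p = s % p := h2
      rw [← h4, ← h5, h3, h6]
  rwa [card_range] at h1

/-- indices of the primes that must be moved to free `t` and `t + d` -/
noncomputable def Bs (k d : ℕ) (a : ℕ → ℤ) (t : ℕ) : Finset ℕ :=
  (range k).filter (fun i => (pn i : ℤ) ∣ (t : ℤ) - a i ∨ (pn i : ℤ) ∣ (t : ℤ) + d - a i)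

/-- the points between `t` and `t + d` that may lose their cover -/
noncomputable def Es (k d : ℕ) (a : ℕ → ℤ) (t : ℕ) : Finset ℕ :=
  (Bs k d a t).biUnion (fun i => (range d).filter (fun j : ℕ => (pn i : ℤ) ∣ (j : ℤ) - (a i - t)))

theorem card_Es_le (k d : ℕ) (a : ℕ → ℤ) (t : ℕ) :
    (Es k d a t).card ≤ ∑ i ∈ Bs k d a t, (d / pn i + 1) :=
  Finset.card_biUnion_le.trans
    (Finset.sum_le_sum fun i _ => card_class_le (pn i) (pn_prime i).pos d _)

theorem card_bad_le (k d N i : ℕ) (a : ℕ → ℤ) :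
    ((range N).filter (fun t => i ∈ Bs k d a t)).card ≤ 2 * (N / pn i + 1) := by
  classical
  have h1 : (range N).filter (fun t => i ∈ Bs k d a t) ⊆
      (range N).filter (fun t : ℕ => (pn i : ℤ) ∣ (t : ℤ) - a i) ∪
      (range N).filter (fun t : ℕ => (pn i : ℤ) ∣ (t : ℤ) - (a i - d)) := by
    intro t ht
    rw [mem_filter] at ht
    rw [mem_union, mem_filter, mem_filter]
    unfold Bs at ht
    rw [mem_filter] at ht
    rcases ht.2.2 with h | h
    · exact Or.inl ⟨ht.1, h⟩
    · refine Or.inr ⟨ht.1, ?_⟩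
      have : (t : ℤ) - (a i - d) = (t : ℤ) + d - a i := by ring
      rwa [this]
  have h2 := Finset.card_le_card h1
  have h3 := Finset.card_union_le ((range N).filter (fun t : ℕ => (pn i : ℤ) ∣ (t : ℤ) - a i))
    ((range N).filter (fun t : ℕ => (pn i : ℤ) ∣ (t : ℤ) - (a i - d)))
  have h4 := card_class_le (pn i) (pn_prime i).pos N (a i)
  have h5 := card_class_le (pn i) (pn_prime i).pos N (a i - d)
  omega

theorem Qd_of_cov {k d N y t : ℕ} {a : ℕ → ℤ} (hy : 2 ≤ y)
    (hcov : ∀ j : ℕ, 0 < j → j < N + d → ∃ i < k, (pn i : ℤ) ∣ (j : ℤ) - a i)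
    (ht : t < N) (hB : ∀ i ∈ Bs k d a t, y < pn i) : Qd k (Es k d a t).card d := by
  classical
  choose c hc1 hc2 using fun i : ℕ => exists_avoid (pn (i + 1)) (three_le_pn (by omega)) d
  have hpos : ∀ i ∈ Bs k d a t, i - 1 + 1 = i := by
    intro i hi
    have h1 := hB i hi
    rcases Nat.eq_zero_or_pos i with h | h
    · subst h
      rw [pn_zero] at h1
      omega
    · omega
  refine ⟨fun i => if i ∈ Bs k d a t then c (i - 1) else a i - t, ?_, Es k d a t, le_rfl, ?_⟩
  · intro i hi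
    by_cases h : i ∈ Bs k d a t
    · simp only [h, if_true]
      have h6 := hc1 (i - 1)
      have h7 := hc2 (i - 1)
      rw [hpos i h] at h6 h7
      exact ⟨h6, h7⟩
    · simp only [h, if_false]
      unfold Bs at h
      rw [mem_filter, mem_range] at h
      push Not at h
      obtain ⟨h1, h2⟩ := h hi
      refine ⟨?_, ?_⟩
      · have : (0 : ℤ) - (a i - t) = t - a i := by ring
        rwa [this]
      · have : (d : ℤ) - (a i - t) = t + d - a i := by ring
        rwa [this]
  · intro j hj0 hjd hjE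
    obtain ⟨i, hi, hdv⟩ := hcov (t + j) (by omega) (by omega)
    refine ⟨i, hi, ?_⟩
    have h1 : (j : ℤ) - (a i - t) = ((t + j : ℕ) : ℤ) - a i := by push_cast; ring
    by_cases h : i ∈ Bs k d a t
    · exfalso
      apply hjE
      unfold Es
      rw [mem_biUnion]
      refine ⟨i, h, ?_⟩
      rw [mem_filter, mem_range]
      exact ⟨hjd, by rw [h1]; exact hdv⟩
    · simp only [h, if_false]
      rw [h1]
      exact hdv

/-- the total cost -/
theorem total_cost (k d N y : ℕ) (a : ℕ → ℤ) (S : Finset ℕ) (hS : S ⊆ range N)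
    (hB : ∀ t ∈ S, ∀ i ∈ Bs k d a t, y < pn i) :
    ∑ t ∈ S, (Es k d a t).card ≤
      ∑ i ∈ (range k).filter (fun i => y < pn i), (d / pn i + 1) * (2 * (N / pn i + 1)) := by
  classical
  set I := (range k).filter (fun i => y < pn i) with hI
  have hBI : ∀ t ∈ S, Bs k d a t ⊆ I := by
    intro t ht i hi
    rw [hI, mem_filter]
    refine ⟨?_, hB t ht i hi⟩
    unfold Bs at hi
    exact (mem_filter.mp hi).1
  calc ∑ t ∈ S, (Es k d a t).card
      ≤ ∑ t ∈ S, ∑ i ∈ Bs k d a t, (d / pn i + 1) := Finset.sum_le_sum fun t _ => card_Es_le k d a t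
    _ = ∑ t ∈ S, ∑ i ∈ I, (if i ∈ Bs k d a t then (d / pn i + 1) else 0) := by
        refine Finset.sum_congr rfl fun t ht => ?_
        rw [← Finset.sum_filter]
        refine Finset.sum_congr ?_ fun _ _ => rfl
        ext i
        rw [mem_filter]
        exact ⟨fun h => ⟨hBI t ht h, h⟩, fun h => h.2⟩
    _ = ∑ i ∈ I, ∑ t ∈ S, (if i ∈ Bs k d a t then (d / pn i + 1) else 0) := Finset.sum_comm
    _ = ∑ i ∈ I, (d / pn i + 1) * (S.filter (fun t => i ∈ Bs k d a t)).card := by
        refine Finset.sum_congr rfl fun i _ => ?_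
        rw [← Finset.sum_filter, Finset.sum_const, smul_eq_mul, mul_comm]
    _ ≤ ∑ i ∈ I, (d / pn i + 1) * (2 * (N / pn i + 1)) := by
        refine Finset.sum_le_sum fun i _ => Nat.mul_le_mul_left _ ?_
        refine le_trans (Finset.card_le_card ?_) (card_bad_le k d N i a)
        intro t ht
        rw [mem_filter] at ht ⊢
        exact ⟨hS ht.1, ht.2⟩

theorem sum_inv_pn_le (k : ℕ) (I : Finset ℕ) (hI : I ⊆ range k) :
    ∑ i ∈ I, 1 / (pn i : ℝ) ≤ 1 + Real.log k := by
  have h1 : ∑ i ∈ I, 1 / (pn i : ℝ) ≤ ∑ i ∈ range k, 1 / ((i : ℝ) + 1) := by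
    refine le_trans (Finset.sum_le_sum_of_subset_of_nonneg hI fun i _ _ => by positivity) ?_
    refine Finset.sum_le_sum fun i _ => ?_
    refine one_div_le_one_div_of_le (by positivity) ?_
    have := add_two_le_pn i
    have h2 : ((i + 2 : ℕ) : ℝ) ≤ pn i := by exact_mod_cast this
    push_cast at h2
    linarith
  have h2 := harmonic_le_one_add_log k
  unfold harmonic at h2
  push_cast at h2
  refine h1.trans (le_trans (le_of_eq ?_) h2)
  refine Finset.sum_congr rfl fun i _ => ?_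
  rw [one_div]

theorem sum_inv_sq_pn_le (k y : ℕ) (hy : 1 ≤ y) :
    ∑ i ∈ (range k).filter (fun i => y < pn i), 1 / (pn i : ℝ) ^ 2 ≤ 1 / (y : ℝ) := by
  classical
  set I := (range k).filter (fun i => y < pn i) with hI
  rcases I.eq_empty_or_nonempty with h | h
  · rw [h, Finset.sum_empty]; positivity
  · have h1 : ∑ i ∈ I, 1 / (pn i : ℝ) ^ 2 = ∑ m ∈ I.image pn, 1 / (m : ℝ) ^ 2 := by
      rw [Finset.sum_image (fun i _ j _ hij => pn_strictMono.injective hij)]
    have hyk : y ≤ pn k := by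
      obtain ⟨i, hi⟩ := h
      rw [hI, mem_filter, mem_range] at hi
      have := pn_strictMono hi.1
      omega
    have h2 : I.image pn ⊆ Ioc y (pn k) := by
      intro m hm
      rw [mem_image] at hm
      obtain ⟨i, hi, rfl⟩ := hm
      rw [hI, mem_filter, mem_range] at hi
      rw [mem_Ioc]
      exact ⟨hi.2, (pn_strictMono hi.1).le⟩
    rw [h1]
    refine le_trans (Finset.sum_le_sum_of_subset_of_nonneg h2 fun i _ _ => by positivity) ?_
    have h3 := sum_Ioc_inv_sq_le_sub (α := ℝ) (show y ≠ 0 by omega) hyk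
    have h4 : ∑ m ∈ Ioc y (pn k), 1 / (m : ℝ) ^ 2 = ∑ m ∈ Ioc y (pn k), ((m : ℝ) ^ 2)⁻¹ :=
      Finset.sum_congr rfl fun m _ => by rw [one_div]
    rw [h4]
    refine h3.trans ?_
    have h5 : (0 : ℝ) ≤ ((pn k : ℕ) : ℝ)⁻¹ := by positivity
    rw [one_div]
    linarith

theorem total_real (k d N y : ℕ) (hy : 1 ≤ y) :
    ((∑ i ∈ (range k).filter (fun i => y < pn i),
      (d / pn i + 1) * (2 * (N / pn i + 1)) : ℕ) : ℝ) ≤
      2 * ((d : ℝ) * N / y + ((d : ℝ) + N) * (1 + Real.log k) + k) := by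
  classical
  set I := (range k).filter (fun i => y < pn i) with hI
  have h1 := sum_inv_pn_le k I (Finset.filter_subset _ _)
  have h2 := sum_inv_sq_pn_le k y hy
  rw [← hI] at h2
  have h3 : (I.card : ℝ) ≤ k := by
    have := Finset.card_le_card (Finset.filter_subset (fun i => y < pn i) (range k))
    rw [card_range] at this
    exact_mod_cast this
  push_cast
  have h4 : ∀ i ∈ I, (((d / pn i : ℕ) : ℝ) + 1) * (2 * (((N / pn i : ℕ) : ℝ) + 1)) ≤
      2 * ((d : ℝ) * N * (1 / (pn i : ℝ) ^ 2) + ((d : ℝ) + N) * (1 / (pn i : ℝ)) + 1) := by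
    intro i _
    have hp : (0 : ℝ) < pn i := by exact_mod_cast (pn_prime i).pos
    have e1 : ((d / pn i : ℕ) : ℝ) ≤ (d : ℝ) / pn i := Nat.cast_div_le
    have e2 : ((N / pn i : ℕ) : ℝ) ≤ (N : ℝ) / pn i := Nat.cast_div_le
    have e3 : (((d / pn i : ℕ) : ℝ) + 1) * (2 * (((N / pn i : ℕ) : ℝ) + 1)) ≤
        ((d : ℝ) / pn i + 1) * (2 * ((N : ℝ) / pn i + 1)) := by
      refine mul_le_mul (by linarith) (by linarith) (by positivity) (by positivity)
    refine e3.trans (le_of_eq ?_)
    field_simp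
    ring
  refine (Finset.sum_le_sum h4).trans ?_
  rw [← Finset.mul_sum, Finset.sum_add_distrib, Finset.sum_add_distrib, ← Finset.mul_sum,
    ← Finset.mul_sum, Finset.sum_const, nsmul_eq_mul, mul_one]
  have hd : (0 : ℝ) ≤ d := Nat.cast_nonneg d
  have hN : (0 : ℝ) ≤ N := Nat.cast_nonneg N
  have e1 := mul_le_mul_of_nonneg_left h2 (mul_nonneg hd hN)
  have e2 := mul_le_mul_of_nonneg_left h1 (add_nonneg hd hN)
  have e3 : (d : ℝ) * N * (1 / y) = (d : ℝ) * N / y := by ring
  rw [e3] at e1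
  linarith

end Pool.Agent.Lib.MP_45349e_nt.AA
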