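import Mathlib
import Pool.Agent.Lib.MP_45349e_nt.AA.Sum

/-!
# The core lemma: windows of a long covering become gaps after adding few primes
-/

open Finset Filter

namespace Pool.Agent.Lib.MP_45349e_nt.AA

open Pool.Agent.Lib.GT (pr)

theorem ev_pow (A a b : ℝ) (hab : a < b) : ∀ᶠ k : ℕ in atTop, A * (k : ℝ) ^ a ≤ (k : ℝ) ^ b := by
  have h1 : Tendsto (fun k : ℕ => (k : ℝ) ^ (b - a)) atTop atTop :=
    (tendsto_rpow_atTop (by linarith)).comp tendsto_natCast_atTop_atTop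
  filter_upwards [h1.eventually_ge_atTop A, eventually_ge_atTop 1] with k hk hk1
  have hk0 : (0 : ℝ) < k := by exact_mod_cast hk1
  have h2 : (k : ℝ) ^ b = (k : ℝ) ^ (b - a) * (k : ℝ) ^ a := by
    rw [← Real.rpow_add hk0]; congr 1; ring
  rw [h2]
  exact mul_le_mul_of_nonneg_right hk (Real.rpow_nonneg hk0.le _)

theorem ev_ge (A a : ℝ) (ha : 0 < a) : ∀ᶠ k : ℕ in atTop, A ≤ (k : ℝ) ^ a := by
  have h1 : Tendsto (fun k : ℕ => (k : ℝ) ^ a) atTop atTop :=
    (tendsto_rpow_atTop ha).comp tendsto_natCast_atTop_atTop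
  exact h1.eventually_ge_atTop A

theorem ev_log (A ε : ℝ) (hA : 0 < A) (hε : 0 < ε) :
    ∀ᶠ k : ℕ in atTop, A * (1 + Real.log k) ≤ (k : ℝ) ^ ε := by
  have h1 := (isLittleO_log_rpow_atTop hε).bound (show (0 : ℝ) < 1 / (2 * A) by positivity)
  have h2 := tendsto_natCast_atTop_atTop (R := ℝ) |>.eventually h1
  filter_upwards [h2, ev_ge (2 * A) ε hε, eventually_ge_atTop 1] with k hk1 hk2 hk3
  have hk : (1 : ℝ) ≤ k := by exact_mod_cast hk3
  rw [Real.norm_of_nonneg (Real.log_nonneg hk), Real.norm_of_nonneg (by positivity)] at hk1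
  have h3 := mul_le_mul_of_nonneg_left hk1 hA.le
  have h4 : A * (1 / (2 * A) * (k : ℝ) ^ ε) = (k : ℝ) ^ ε / 2 := by
    field_simp
  rw [h4] at h3
  linarith

theorem core : ∃ η : ℝ, 0 < η ∧ η ≤ 1 / 40 ∧ ∃ k₀ : ℕ, ∀ k : ℕ, k₀ ≤ k → ∀ N d : ℕ,
    Even d → 0 < d → Cov k (N + d) → (k : ℝ) ^ (1 - η) / 2 ≤ N → (N : ℝ) ≤ 2 * (k : ℝ) ^ (1 + η) →
    (d : ℝ) ≤ 2 * (k : ℝ) ^ (1 + η) → ∀ r : ℕ, (k : ℝ) ^ (1 - η) ≤ r → d ∈ gaps (k + r) := by
  classical
  obtain ⟨c, hc, C₀, hC₀, y₀, hsieve⟩ := sieve_lower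
  have hC0r : (1 : ℝ) ≤ C₀ := by exact_mod_cast hC₀
  set η : ℝ := 1 / (40 * C₀) with hη
  have hη0 : 0 < η := by rw [hη]; positivity
  have hη1 : η ≤ 1 / 40 := by
    rw [hη]
    exact one_div_le_one_div_of_le (by norm_num) (by linarith)
  have hηC : 4 * η * C₀ = 1 / 10 := by
    rw [hη]; field_simp; norm_num
  refine ⟨η, hη0, hη1, ?_⟩
  have E1 := eventually_ge_atTop 3 (α := ℕ)
  have E2 := ev_ge (max (y₀ : ℝ) 2) (4 * η) (by linarith)
  have E3 := ev_pow (2 ^ C₀ * 2) (1 / 10) (1 - η) (by linarith)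
  have E4 := ev_pow 2 (4 * η) 1 (by linarith)
  have E5 := ev_log 1 (η / 4) one_pos (by linarith)
  have E6 := ev_pow (36 / c) (1 - 3 * η) (1 - 3 * η / 2) (by linarith)
  have E7 := ev_pow (144 / c) (1 + 5 * η / 4) (2 - 5 * η / 2) (by linarith)
  have E8 := ev_pow (36 / c + 1) 1 (2 - 5 * η / 2) (by linarith)
  have E9 := ev_pow 2 (1 + η) 2 (by linarith)
  obtain ⟨k₀, hk₀⟩ := eventually_atTop.mp
    (E1.and (E2.and (E3.and (E4.and (E5.and (E6.and (E7.and (E8.and E9))))))))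
  refine ⟨k₀, fun k hk N d hdeven hd0 hcov hN1 hN2 hd2 r hr => ?_⟩
  obtain ⟨e1, e2, e3, e4, e5, e6, e7, e8, e9⟩ := hk₀ k hk
  obtain ⟨a, hcov⟩ := hcov
  set X : ℝ := (k : ℝ) with hX
  have hX3 : (3 : ℝ) ≤ X := by rw [hX]; exact_mod_cast e1
  have hX0 : 0 < X := by linarith
  have hX1 : 1 ≤ X := by linarith
  have hy0 : (y₀ : ℝ) ≤ X ^ (4 * η) := (le_max_left _ _).trans e2
  have hy2 : (2 : ℝ) ≤ X ^ (4 * η) := (le_max_right _ _).trans e2
  set y : ℕ := ⌈X ^ (4 * η)⌉₊ with hy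
  have hyl : X ^ (4 * η) ≤ y := Nat.le_ceil _
  have hyu : (y : ℝ) ≤ 2 * X ^ (4 * η) := by
    have := (Nat.ceil_lt_add_one (a := X ^ (4 * η)) (by positivity)).le
    linarith
  have hyX : (y : ℝ) ≤ X := by
    rw [Real.rpow_one] at e4
    linarith
  have hyy0 : y₀ ≤ y := by
    have : (y₀ : ℝ) ≤ y := hy0.trans hyl
    exact_mod_cast this
  have hyy2 : 2 ≤ y := by
    have : ((2 : ℕ) : ℝ) ≤ y := by push_cast; exact hy2.trans hyl
    exact_mod_cast this
  have hyr2 : (2 : ℝ) ≤ y := hy2.trans hyl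
  have hyr0 : (0 : ℝ) < y := by linarith
  -- the sieve condition
  have hyN : y ^ C₀ ≤ N := by
    have h1 : (y : ℝ) ^ C₀ ≤ (2 * X ^ (4 * η)) ^ C₀ := pow_le_pow_left₀ hyr0.le hyu C₀
    have h2 : (2 * X ^ (4 * η)) ^ C₀ = 2 ^ C₀ * X ^ ((1 : ℝ) / 10) := by
      rw [mul_pow, ← Real.rpow_natCast (X ^ (4 * η)) C₀, ← Real.rpow_mul hX0.le, hηC]
    rw [h2] at h1
    have h3 : (y : ℝ) ^ C₀ ≤ N := by
      refine le_trans ?_ hN1
      linarith
    exact_mod_cast h3
  set a' : ℕ → ℤ := fun q => a (Nat.count Nat.Prime q) with ha'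
  have ha'pn : ∀ i, a' (pn i) = a i := by
    intro i
    simp only [ha']
    congr 1
    exact Nat.count_nth_of_infinite Nat.infinite_setOfPred_prime i
  have hS := hsieve y hyy0 N hyN d hdeven a'
  set S := Sv y N d a' with hSdef
  have hSsub : S ⊆ range N := Finset.filter_subset _ _
  have hB : ∀ t ∈ S, ∀ i ∈ Bs k d a t, y < pn i := by
    intro t ht i hi
    by_contra hcon
    have h1 : pn i ∈ pr y := by
      unfold pr
      rw [mem_filter, mem_range]
      exact ⟨by omega, pn_prime i⟩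
    rw [hSdef] at ht
    unfold Sv at ht
    have h2 := (mem_filter.mp ht).2 (pn i) h1
    rw [ha'pn] at h2
    unfold Bs at hi
    rcases (mem_filter.mp hi).2 with h | h
    · exact h2.1 h
    · exact h2.2 h
  -- numerics
  have hNr : (0 : ℝ) ≤ N := Nat.cast_nonneg N
  have hdr : (0 : ℝ) ≤ d := Nat.cast_nonneg d
  have hNpos : 0 < (N : ℝ) := lt_of_lt_of_le (by positivity) hN1
  have hlogy0 : 0 < Real.log y := Real.log_pos (by linarith)
  have hlogy : Real.log y ≤ 1 + Real.log X := by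
    have := Real.log_le_log hyr0 hyX
    linarith
  have hlogX : 1 + Real.log X ≤ X ^ (η / 4) := by linarith
  have hlogsq : (Real.log y) ^ 2 ≤ X ^ (η / 2) := by
    have h1 : (Real.log y) ^ 2 ≤ (X ^ (η / 4)) ^ 2 :=
      pow_le_pow_left₀ hlogy0.le (hlogy.trans hlogX) 2
    refine h1.trans (le_of_eq ?_)
    rw [← Real.rpow_natCast, ← Real.rpow_mul hX0.le]
    congr 1
    push_cast
    ring
  have hT : 2 * ((d : ℝ) * N / y + ((d : ℝ) + N) * (1 + Real.log k) + k) <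
      (c * N / (Real.log y) ^ 2) * X ^ (1 - η) / 3 := by
    have hL : c * N * X ^ (1 - 3 * η / 2) / 3 ≤ (c * N / (Real.log y) ^ 2) * X ^ (1 - η) / 3 := by
      have h1 : c * N / X ^ (η / 2) ≤ c * N / (Real.log y) ^ 2 :=
        div_le_div_of_nonneg_left (by positivity) (by positivity) hlogsq
      have h2 : c * N * X ^ (1 - 3 * η / 2) = c * N / X ^ (η / 2) * X ^ (1 - η) := by
        have e : X ^ (1 - 3 * η / 2) = X ^ (1 - η) / X ^ (η / 2) := by
          rw [← Real.rpow_sub hX0]; congr 1; ring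
        rw [e]; ring
      rw [h2]
      have h3 := mul_le_mul_of_nonneg_right h1 (show 0 ≤ X ^ (1 - η) by positivity)
      linarith
    refine lt_of_lt_of_le ?_ hL
    -- term 1
    have t1 : (d : ℝ) * N / y ≤ 2 * N * X ^ (1 - 3 * η) := by
      have h1 : (d : ℝ) * N / y ≤ (2 * X ^ (1 + η)) * N / X ^ (4 * η) := by
        refine div_le_div₀ (by positivity) ?_ (by positivity) hyl
        exact mul_le_mul_of_nonneg_right hd2 hNr
      refine h1.trans (le_of_eq ?_)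
      have h2 : X ^ (1 - 3 * η) = X ^ (1 + η) / X ^ (4 * η) := by
        rw [← Real.rpow_sub hX0]; congr 1; ring
      rw [h2]; ring
    have t1' : 4 * X ^ (1 - 3 * η) ≤ c / 9 * X ^ (1 - 3 * η / 2) := by
      have h1 := mul_le_mul_of_nonneg_left e6 (show (0 : ℝ) ≤ c / 9 by positivity)
      have h2 : c / 9 * (36 / c * X ^ (1 - 3 * η)) = 4 * X ^ (1 - 3 * η) := by
        field_simp; norm_num
      rwa [h2] at h1
    have t1'' := mul_le_mul_of_nonneg_left t1' hNr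
    -- lower bound for N times power
    have hNX : X ^ (2 - 5 * η / 2) / 2 ≤ N * X ^ (1 - 3 * η / 2) := by
      have h1 := mul_le_mul_of_nonneg_right hN1 (show 0 ≤ X ^ (1 - 3 * η / 2) by positivity)
      refine le_trans (le_of_eq ?_) h1
      have h2 : X ^ (2 - 5 * η / 2) = X ^ (1 - η) * X ^ (1 - 3 * η / 2) := by
        rw [← Real.rpow_add hX0]; congr 1; ring
      rw [h2]; ring
    -- term 2
    have t2 : ((d : ℝ) + N) * (1 + Real.log k) ≤ 4 * X ^ (1 + 5 * η / 4) := by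
      have h1 : ((d : ℝ) + N) * (1 + Real.log k) ≤ (4 * X ^ (1 + η)) * X ^ (η / 4) := by
        refine mul_le_mul (by linarith) hlogX ?_ (by positivity)
        have := Real.log_nonneg hX1
        linarith
      refine h1.trans (le_of_eq ?_)
      have h2 : X ^ (1 + 5 * η / 4) = X ^ (1 + η) * X ^ (η / 4) := by
        rw [← Real.rpow_add hX0]; congr 1; ring
      rw [h2]; ring
    have t2' : 8 * X ^ (1 + 5 * η / 4) ≤ c / 18 * X ^ (2 - 5 * η / 2) := by
      have h1 := mul_le_mul_of_nonneg_left e7 (show (0 : ℝ) ≤ c / 18 by positivity)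
      have h2 : c / 18 * (144 / c * X ^ (1 + 5 * η / 4)) = 8 * X ^ (1 + 5 * η / 4) := by
        field_simp; norm_num
      rwa [h2] at h1
    -- term 3
    have t3 : 2 * X < c / 18 * X ^ (2 - 5 * η / 2) := by
      have h1 := mul_le_mul_of_nonneg_left e8 (show (0 : ℝ) ≤ c / 18 by positivity)
      rw [Real.rpow_one] at h1
      have h2 : c / 18 * ((36 / c + 1) * X) = 2 * X + c / 18 * X := by
        field_simp; norm_num
      rw [h2] at h1
      have : 0 < c / 18 * X := by positivity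
      linarith
    have hcN : c / 18 * X ^ (2 - 5 * η / 2) ≤ c / 9 * (N * X ^ (1 - 3 * η / 2)) := by
      have h1 := mul_le_mul_of_nonneg_left hNX (show (0 : ℝ) ≤ c / 9 by positivity)
      linarith
    have hfin : c * N * X ^ (1 - 3 * η / 2) / 3 = N * (c / 9 * X ^ (1 - 3 * η / 2)) +
        c / 9 * (N * X ^ (1 - 3 * η / 2)) + c / 9 * (N * X ^ (1 - 3 * η / 2)) := by ring
    rw [hfin]
    have t1f : 2 * ((d : ℝ) * N / y) ≤ N * (4 * X ^ (1 - 3 * η)) := by linarith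
    linarith
  -- choose t
  have hex : ∃ t ∈ S, 3 * (Es k d a t).card ≤ r := by
    by_contra hcon
    push Not at hcon
    have h1 : (S.card : ℝ) * X ^ (1 - η) ≤ 3 * ((∑ t ∈ S, (Es k d a t).card : ℕ) : ℝ) := by
      push_cast
      rw [Finset.mul_sum, ← nsmul_eq_mul]
      refine Finset.card_nsmul_le_sum _ _ _ fun t ht => ?_
      have h2 := hcon t ht
      have h3 : (r : ℝ) ≤ 3 * ((Es k d a t).card : ℝ) := by exact_mod_cast h2.le
      exact hr.trans h3
    have h4 : ((∑ t ∈ S, (Es k d a t).card : ℕ) : ℝ) ≤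
        ((∑ i ∈ (range k).filter (fun i => y < pn i),
          (d / pn i + 1) * (2 * (N / pn i + 1)) : ℕ) : ℝ) := by
      exact_mod_cast total_cost k d N y a S hSsub hB
    have h5 := total_real k d N y (by omega)
    have h6 := mul_le_mul_of_nonneg_right hS (show 0 ≤ X ^ (1 - η) by positivity)
    linarith
  obtain ⟨t, ht, h3⟩ := hex
  have htN : t < N := mem_range.mp (hSsub ht)
  have hQ := Qd_of_cov hyy2 hcov htN (hB t ht)
  refine mem_gaps_of_holes e1 hdeven hd0 ?_ hQ h3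
  have h7 : (d : ℝ) ≤ ((k ^ 2 : ℕ) : ℝ) := by
    push_cast
    rw [Real.rpow_two] at e9
    exact hd2.trans e9
  have h8 : d ≤ k ^ 2 := by exact_mod_cast h7
  have h9 : k < pn k := by
    have := add_two_le_pn k
    omega
  have h10 : k ^ 2 < pn k ^ 2 := Nat.pow_lt_pow_left h9 (by norm_num)
  omega

end Pool.Agent.Lib.MP_45349e_nt.AA
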