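import Mathlib
import Pool.Agent.Lib.MP_45349e_nt.AA.Core

/-!
# Polynomial upper bound for the length of a covering, and the extremal function
-/

open Finset Filter

namespace Pool.Agent.Lib.MP_45349e_nt.AA

open Pool.Agent.Lib.GT (pr)

theorem primeCounting_pn (k : ℕ) : Nat.primeCounting (pn k) = k + 1 := by
  have h := Nat.primeCounting'_nth_eq k
  unfold Nat.primeCounting pn
  unfold Nat.primeCounting' at *
  rw [Nat.count_succ, h, if_pos (Nat.prime_nth_prime k)]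

theorem log_le_two_sqrt' (x : ℝ) (hx : 1 ≤ x) : Real.log x ≤ 2 * Real.sqrt x := by
  have h1 : Real.log (Real.sqrt x) ≤ Real.sqrt x :=
    (Real.log_le_sub_one_of_pos (Real.sqrt_pos.mpr (by linarith))).trans (by linarith)
  rw [Real.log_sqrt (by linarith)] at h1
  linarith

theorem pn_le (k : ℕ) : (pn k : ℝ) ≤ 4 * (2 * (k : ℝ) + 6) ^ 2 := by
  set n := pn k with hn
  have h2 : 2 ≤ n := (pn_prime k).two_le
  have hnr : (2 : ℝ) ≤ n := by exact_mod_cast h2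
  have h1 := Chebyshev.pi_ge n
  rw [hn, primeCounting_pn, ← hn] at h1
  have hlog : 0 < Real.log n := Real.log_pos (by linarith)
  rw [div_le_iff₀ hlog] at h1
  push_cast at h1
  have h3 := log_le_two_sqrt' n (by linarith)
  have h4 := log_le_two_sqrt' ((n : ℝ) + 1) (by linarith)
  have h5 : Real.sqrt ((n : ℝ) + 1) ≤ 2 * Real.sqrt n := by
    rw [show (2 : ℝ) * Real.sqrt n = Real.sqrt (4 * n) by
      rw [Real.sqrt_mul (by norm_num), show (4 : ℝ) = 2 ^ 2 by norm_num,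
        Real.sqrt_sq (by norm_num)]]
    exact Real.sqrt_le_sqrt (by linarith)
  have hs0 : 0 < Real.sqrt n := Real.sqrt_pos.mpr (by linarith)
  have hl2 : (1 / 2 : ℝ) < Real.log 2 := by
    have := Real.log_two_gt_d9
    linarith
  have hk : (0 : ℝ) ≤ k := Nat.cast_nonneg k
  have h6 : (n : ℝ) * (1 / 2) ≤ (2 * (k : ℝ) + 6) * Real.sqrt n := by
    have e1 : (n : ℝ) * (1 / 2) ≤ n * Real.log 2 :=
      mul_le_mul_of_nonneg_left hl2.le (by linarith)
    have e2 : ((k : ℝ) + 1) * Real.log n ≤ ((k : ℝ) + 1) * (2 * Real.sqrt n) :=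
      mul_le_mul_of_nonneg_left h3 (by linarith)
    have e3 : Real.log ((n : ℝ) + 1) ≤ 4 * Real.sqrt n := by linarith
    nlinarith
  have h7 : Real.sqrt n * Real.sqrt n = n := Real.mul_self_sqrt (by linarith)
  have h8 : Real.sqrt n ≤ 2 * (2 * (k : ℝ) + 6) := by
    have h9 : Real.sqrt n * (Real.sqrt n * (1 / 2)) ≤ Real.sqrt n * (2 * (k : ℝ) + 6) := by
      have : Real.sqrt n * (Real.sqrt n * (1 / 2)) = n * (1 / 2) := by
        rw [← mul_assoc, h7]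
      rw [this]
      linarith
    have := le_of_mul_le_mul_left h9 hs0
    linarith
  calc (n : ℝ) = Real.sqrt n ^ 2 := by rw [pow_two, h7]
    _ ≤ (2 * (2 * (k : ℝ) + 6)) ^ 2 := pow_le_pow_left₀ hs0.le h8 2
    _ = 4 * (2 * (k : ℝ) + 6) ^ 2 := by ring

theorem cov_bound : ∃ C₀ y₁ : ℕ, 1 ≤ y₁ ∧ ∀ k L : ℕ, Cov k L → L ≤ (max y₁ (pn k)) ^ C₀ := by
  obtain ⟨c, hc, C₀, hC₀, y₀, hsieve⟩ := sieve_lower
  refine ⟨C₀, max y₀ 3, le_trans (by norm_num) (le_max_right _ _), fun k L hcov => ?_⟩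
  obtain ⟨a, hcov⟩ := hcov
  by_contra hcon
  push Not at hcon
  set y := max (max y₀ 3) (pn k) with hy
  have hy3 : 3 ≤ y := (le_max_right _ _).trans (le_max_left _ _)
  have hyy0 : y₀ ≤ y := (le_max_left _ _).trans (le_max_left _ _)
  have hyk : pn k ≤ y := le_max_right _ _
  set a' : ℕ → ℤ := fun q => a (Nat.count Nat.Prime q) - 1 with ha'
  have ha'pn : ∀ i, a' (pn i) = a i - 1 := by
    intro i
    simp only [ha']
    congr 2
    exact Nat.count_nth_of_infinite Nat.infinite_setOfPred_prime i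
  have hS := hsieve y hyy0 (y ^ C₀) le_rfl 0 Even.zero a'
  have hyr : (3 : ℝ) ≤ y := by exact_mod_cast hy3
  have hlog : 0 < Real.log y := Real.log_pos (by linarith)
  have hpos : 0 < c * ((y ^ C₀ : ℕ) : ℝ) / (Real.log y) ^ 2 := by
    push_cast
    positivity
  have hne : (Sv y (y ^ C₀) 0 a').Nonempty := by
    rw [← Finset.card_pos]
    exact_mod_cast lt_of_lt_of_le hpos hS
  obtain ⟨t, ht⟩ := hne
  unfold Sv at ht
  rw [mem_filter, mem_range] at ht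
  obtain ⟨i, hi, hdv⟩ := hcov (t + 1) (by omega) (by omega)
  have hpi : pn i ∈ pr y := by
    unfold pr
    rw [mem_filter, mem_range]
    have := pn_strictMono hi
    exact ⟨by omega, pn_prime i⟩
  have h1 := (ht.2 (pn i) hpi).1
  rw [ha'pn] at h1
  apply h1
  have h2 : ((t + 1 : ℕ) : ℤ) - a i = (t : ℤ) - (a i - 1) := by push_cast; ring
  rwa [h2] at hdv

theorem Cov.mono {k L L' : ℕ} (h : Cov k L) (hL : L' ≤ L) : Cov k L' := by
  obtain ⟨a, ha⟩ := h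
  exact ⟨a, fun j h1 h2 => ha j h1 (by omega)⟩

theorem Cov.mono_k {k k' L : ℕ} (h : Cov k L) (hk : k ≤ k') : Cov k' L := by
  obtain ⟨a, ha⟩ := h
  refine ⟨a, fun j h1 h2 => ?_⟩
  obtain ⟨i, hi, hd⟩ := ha j h1 h2
  exact ⟨i, by omega, hd⟩

theorem cov_trivial (k : ℕ) : Cov k (k + 1) := by
  refine ⟨fun i => (i : ℤ) + 1, fun j h1 h2 => ⟨j - 1, by omega, ?_⟩⟩
  have : (j : ℤ) - (((j - 1 : ℕ) : ℤ) + 1) = 0 := by omega
  rw [this]
  exact dvd_zero _

/-- the extremal function: the largest `L` with a covering of `(0, L)` by the first `k` primes -/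
noncomputable def Jf (k : ℕ) : ℕ := sSup {L | Cov k L}

theorem bdd_cov (k : ℕ) : BddAbove {L | Cov k L} := by
  obtain ⟨C₀, y₁, _, h⟩ := cov_bound
  exact ⟨_, fun L hL => h k L hL⟩

theorem le_Jf {k L : ℕ} (h : Cov k L) : L ≤ Jf k := le_csSup (bdd_cov k) h

theorem cov_Jf (k : ℕ) : Cov k (Jf k) :=
  Nat.sSup_mem ⟨k + 1, cov_trivial k⟩ (bdd_cov k)

theorem Jf_mono {k k' : ℕ} (hk : k ≤ k') : Jf k ≤ Jf k' := le_Jf ((cov_Jf k).mono_k hk)

theorem succ_le_Jf (k : ℕ) : k + 1 ≤ Jf k := le_Jf (cov_trivial k)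

theorem log_Jf_le : ∃ B : ℝ, 0 < B ∧ ∀ k : ℕ, 1 ≤ k → Real.log (Jf k) ≤ B * (1 + Real.log k) := by
  obtain ⟨C₀, y₁, hy₁, h⟩ := cov_bound
  have hy1 : (1 : ℝ) ≤ y₁ := by exact_mod_cast hy₁
  have hl : 0 ≤ Real.log (256 * y₁) := Real.log_nonneg (by linarith)
  refine ⟨(C₀ : ℝ) * (Real.log (256 * y₁) + 2) + 1, by positivity, fun k hk => ?_⟩
  have hkr : (1 : ℝ) ≤ k := by exact_mod_cast hk
  have h1 := h k (Jf k) (cov_Jf k)
  have hJ1 : 1 ≤ Jf k := by have := succ_le_Jf k; omega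
  have hJ : (0 : ℝ) < Jf k := by exact_mod_cast (by omega : 0 < Jf k)
  have h2 : ((max y₁ (pn k) : ℕ) : ℝ) ≤ 256 * y₁ * (k : ℝ) ^ 2 := by
    have hk2 : (1 : ℝ) ≤ (k : ℝ) ^ 2 := one_le_pow₀ hkr
    rw [Nat.cast_max]
    refine max_le ?_ ?_
    · nlinarith
    · have h3 := pn_le k
      have h4 : (2 * (k : ℝ) + 6) ^ 2 ≤ (8 * k) ^ 2 :=
        pow_le_pow_left₀ (by positivity) (by linarith) 2
      have h5 : (256 : ℝ) * (k : ℝ) ^ 2 ≤ 256 * y₁ * (k : ℝ) ^ 2 := by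
        nlinarith
      calc (pn k : ℝ) ≤ 4 * (2 * (k : ℝ) + 6) ^ 2 := h3
        _ ≤ 4 * (8 * k) ^ 2 := by linarith
        _ = 256 * (k : ℝ) ^ 2 := by ring
        _ ≤ _ := h5
  have hmax : (0 : ℝ) < ((max y₁ (pn k) : ℕ) : ℝ) := by
    have : 0 < max y₁ (pn k) := lt_of_lt_of_le (by omega) (le_max_left _ _)
    exact_mod_cast this
  have h3 : Real.log (Jf k) ≤ C₀ * Real.log ((max y₁ (pn k) : ℕ) : ℝ) := by
    have h4 : ((Jf k : ℕ) : ℝ) ≤ ((max y₁ (pn k) : ℕ) : ℝ) ^ C₀ := by exact_mod_cast h1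
    have h5 := Real.log_le_log hJ h4
    rwa [Real.log_pow] at h5
  have h4 : Real.log ((max y₁ (pn k) : ℕ) : ℝ) ≤ Real.log (256 * y₁) + 2 * Real.log k := by
    have h5 := Real.log_le_log hmax h2
    rw [Real.log_mul (by positivity) (by positivity), Real.log_pow, Nat.cast_ofNat] at h5
    exact h5
  have hlk : 0 ≤ Real.log k := Real.log_nonneg hkr
  have hC : (0 : ℝ) ≤ C₀ := Nat.cast_nonneg _
  have h5 := mul_le_mul_of_nonneg_left h4 hC
  have h6 : 0 ≤ (C₀ : ℝ) * Real.log (256 * y₁) * Real.log k := by positivity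
  nlinarith

theorem sup_gaps_le (k : ℕ) : (gaps k).sup id ≤ Jf k :=
  Finset.sup_le fun _ hL => le_Jf (cov_of_mem_gaps hL)

theorem coreJ : ∃ η : ℝ, 0 < η ∧ η ≤ 1 / 40 ∧ ∃ k₀ : ℕ, ∀ k : ℕ, k₀ ≤ k → ∀ r : ℕ,
    (k : ℝ) ^ (1 - η) ≤ r → ∀ d : ℕ, 0 < d → Even d →
    (d : ℝ) ≤ (1 - (k : ℝ) ^ (-η)) * min (Jf k : ℝ) ((k : ℝ) ^ (1 + η)) → d ∈ gaps (k + r) := by
  obtain ⟨η, hη0, hη1, k₀, hcore⟩ := core
  refine ⟨η, hη0, hη1, ?_⟩
  obtain ⟨k₁, hk₁⟩ := eventually_atTop.mp ((ev_ge 2 (1 - η) (by linarith)).and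
    (eventually_ge_atTop (max k₀ 1)))
  refine ⟨k₁, fun k hk r hr d hd0 hd2 hd => ?_⟩
  obtain ⟨e1, e2⟩ := hk₁ k hk
  have hk1 : 1 ≤ k := (le_max_right _ _).trans e2
  have hkr : (1 : ℝ) ≤ k := by exact_mod_cast hk1
  have hk0 : (0 : ℝ) < k := by linarith
  set X : ℝ := (k : ℝ) with hX
  set P : ℕ := ⌊X ^ (1 + η)⌋₊ with hP
  set L : ℕ := min (Jf k) P with hL
  have hPl : X ^ (1 + η) < P + 1 := Nat.lt_floor_add_one _
  have hPu : (P : ℝ) ≤ X ^ (1 + η) := Nat.floor_le (by positivity)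
  have hXP : X ≤ X ^ (1 + η) := by
    conv_lhs => rw [← Real.rpow_one X]
    exact Real.rpow_le_rpow_of_exponent_le hkr (by linarith)
  have hJX : X + 1 ≤ (Jf k : ℝ) := by
    have := succ_le_Jf k
    rw [hX]
    exact_mod_cast this
  have hmin : min (Jf k : ℝ) (X ^ (1 + η)) ≤ (L : ℝ) + 1 := by
    rw [hL]
    rcases le_total (Jf k) P with h | h
    · rw [min_eq_left h]
      exact (min_le_left _ _).trans (by linarith)
    · rw [min_eq_right h]
      exact (min_le_right _ _).trans hPl.le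
  have hLX : X ≤ (L : ℝ) + 1 := by
    refine le_trans ?_ hmin
    exact le_min (by linarith) hXP
  have hLu : (L : ℝ) ≤ X ^ (1 + η) := by
    refine le_trans ?_ hPu
    exact_mod_cast min_le_right _ _
  have hu0 : 0 < X ^ (-η) := Real.rpow_pos_of_pos hk0 _
  have hu1 : X ^ (-η) ≤ 1 := Real.rpow_le_one_of_one_le_of_nonpos hkr (by linarith)
  have hdL : (d : ℝ) ≤ (1 - X ^ (-η)) * ((L : ℝ) + 1) :=
    hd.trans (mul_le_mul_of_nonneg_left hmin (by linarith))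
  have hXX : X ^ (-η) * X = X ^ (1 - η) := by
    conv_lhs => rw [← Real.rpow_one X, ← Real.rpow_mul hk0.le, ← Real.rpow_add hk0]
    congr 1
    ring
  have hNlow : X ^ (1 - η) / 2 ≤ (L : ℝ) - d := by
    have h1 : X ^ (-η) * X ≤ X ^ (-η) * ((L : ℝ) + 1) := mul_le_mul_of_nonneg_left hLX hu0.le
    rw [hXX] at h1
    nlinarith
  have hdlt : d ≤ L := by
    have h1 : (0 : ℝ) ≤ (L : ℝ) - d := le_trans (by positivity) hNlow
    have h2 : (d : ℝ) ≤ L := by linarith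
    exact_mod_cast h2
  have hNcast : (((L - d : ℕ) : ℕ) : ℝ) = (L : ℝ) - d := by rw [Nat.cast_sub hdlt]
  have hXp : 0 ≤ X ^ (1 + η) := by positivity
  refine hcore k ((le_max_left _ _).trans e2) (L - d) d hd2 hd0 ?_ ?_ ?_ ?_ r hr
  · rw [Nat.sub_add_cancel hdlt]
    exact (cov_Jf k).mono (min_le_left _ _)
  · rw [hNcast]; exact hNlow
  · rw [hNcast]
    have : (0 : ℝ) ≤ d := Nat.cast_nonneg d
    linarith
  · have h1 : (d : ℝ) ≤ L := by exact_mod_cast hdlt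
    linarith

end Pool.Agent.Lib.MP_45349e_nt.AA
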