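import Mathlib
import Pool.Agent.Lib.MP_45349e_nt.AA.Poly

/-!
# Almost all `k`: telescoping the logarithm of the extremal function
-/

open Finset Filter

namespace Pool.Agent.Lib.MP_45349e_nt.AA

theorem sum_diff_le (f : ℕ → ℝ) (hf : Monotone f) (hf0 : ∀ n, 0 ≤ f n) (A K : ℕ) (hAK : A ≤ K)
    (R : ℕ) : ∑ k ∈ Ioc A K, (f k - f (k - R)) ≤ R * f K := by
  induction R with
  | zero => simp
  | succ R ih =>
    have h1 : ∑ k ∈ Ioc A K, (f (k - R) - f (k - (R + 1))) ≤ f K := by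
      have h2 : ∀ B : ℕ, A ≤ B → ∑ k ∈ Ioc A B, (f (k - R) - f (k - (R + 1))) ≤ f (B - R) := by
        intro B hB
        induction B, hB using Nat.le_induction with
        | base => simp [hf0]
        | succ B hB ihB =>
          rw [← Finset.insert_Ioc_right_eq_Ioc_add_one hB, Finset.sum_insert (by simp)]
          have h3 : B + 1 - (R + 1) = B - R := by omega
          rw [h3]
          linarith
      exact (h2 K hAK).trans (hf (Nat.sub_le _ _))
    have h2 : ∑ k ∈ Ioc A K, (f k - f (k - (R + 1))) =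
        ∑ k ∈ Ioc A K, (f k - f (k - R)) + ∑ k ∈ Ioc A K, (f (k - R) - f (k - (R + 1))) := by
      rw [← Finset.sum_add_distrib]
      exact Finset.sum_congr rfl fun k _ => by ring
    rw [h2]
    push_cast
    linarith

/-- few `k` see a large jump of the extremal function over a window of length `R` -/
theorem card_jump_le (A K R : ℕ) (hAK : A ≤ K) (δ : ℝ) (hδ0 : 0 < δ) (hδ1 : δ ≤ 1) :
    (((Ioc A K).filter (fun k => (1 + δ) * (Jf (k - R) : ℝ) < (Jf k : ℝ))).card : ℝ) * (δ / 2) ≤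
      R * Real.log (Jf K) := by
  classical
  have hJ1 : ∀ k, (1 : ℝ) ≤ (Jf k : ℝ) := by
    intro k
    have := succ_le_Jf k
    exact_mod_cast (by omega : 1 ≤ Jf k)
  set f : ℕ → ℝ := fun k => Real.log (Jf k) with hfdef
  have hf : Monotone f := by
    intro a b hab
    refine Real.log_le_log (by linarith [hJ1 a]) ?_
    exact_mod_cast Jf_mono hab
  have hf0 : ∀ n, 0 ≤ f n := fun n => Real.log_nonneg (hJ1 n)
  refine le_trans ?_ (sum_diff_le f hf hf0 A K hAK R)
  set D := (Ioc A K).filter (fun k => (1 + δ) * (Jf (k - R) : ℝ) < (Jf k : ℝ)) with hD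
  have h1 : ∑ k ∈ D, (f k - f (k - R)) ≤ ∑ k ∈ Ioc A K, (f k - f (k - R)) := by
    refine Finset.sum_le_sum_of_subset_of_nonneg (Finset.filter_subset _ _) fun k _ _ => ?_
    have := hf (Nat.sub_le k R)
    linarith
  refine le_trans ?_ h1
  rw [← nsmul_eq_mul]
  refine Finset.card_nsmul_le_sum _ _ _ fun k hk => ?_
  have h2 := (mem_filter.mp hk).2
  have h3 : 0 < (Jf (k - R) : ℝ) := by linarith [hJ1 (k - R)]
  have h4 := Real.log_le_log (by positivity) h2.le
  rw [Real.log_mul (by positivity) (by positivity)] at h4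
  have h5 : δ / 2 ≤ Real.log (1 + δ) := by
    have h6 := Real.one_sub_inv_le_log_of_pos (show 0 < 1 + δ by linarith)
    have h7 : 1 - (1 + δ)⁻¹ = δ / (1 + δ) := by field_simp; ring
    rw [h7] at h6
    refine le_trans ?_ h6
    rw [div_le_div_iff₀ (by norm_num) (by positivity)]
    nlinarith
  simp only [hfdef]
  linarith

/-- lower bound for the number of gaps from all small even gaps -/
theorem card_gaps_ge (k : ℕ) (Y : ℝ) (h : ∀ d : ℕ, 0 < d → Even d → (d : ℝ) ≤ Y → d ∈ gaps k) :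
    Y / 2 - 1 ≤ ((gaps k).card : ℝ) := by
  rcases le_or_gt Y 0 with hY | hY
  · have : (0 : ℝ) ≤ ((gaps k).card : ℝ) := Nat.cast_nonneg _
    linarith
  · set m : ℕ := ⌊Y / 2⌋₊ with hm
    have hmu : (m : ℝ) ≤ Y / 2 := Nat.floor_le (by positivity)
    have hml : Y / 2 < m + 1 := Nat.lt_floor_add_one _
    have h1 : (Finset.Icc 1 m).image (fun i => 2 * i) ⊆ gaps k := by
      intro d hd
      rw [mem_image] at hd
      obtain ⟨i, hi, rfl⟩ := hd
      rw [mem_Icc] at hi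
      refine h _ (by omega) (even_two_mul i) ?_
      have : (i : ℝ) ≤ m := by exact_mod_cast hi.2
      push_cast
      linarith
    have h2 := Finset.card_le_card h1
    rw [Finset.card_image_of_injective _ (fun a b hab => by
      have : 2 * a = 2 * b := hab
      omega), Nat.card_Icc, Nat.add_sub_cancel] at h2
    have h3 : (m : ℝ) ≤ ((gaps k).card : ℝ) := by exact_mod_cast h2
    linarith

/-- the property of `k` in the main theorem, for the extremal function -/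
def Good (η : ℝ) (k : ℕ) : Prop :=
  (∀ d : ℕ, 0 < d → Even d →
    (d : ℝ) ≤ (1 - (k : ℝ) ^ (-η)) * min (((gaps k).sup id : ℕ) : ℝ) ((k : ℝ) ^ (1 + η)) →
    d ∈ gaps k) ∧
  (1 / 2 - (k : ℝ) ^ (-η)) * min (((gaps k).sup id : ℕ) : ℝ) ((k : ℝ) ^ (1 + η)) ≤
    ((gaps k).card : ℝ)

theorem good_of_all (η : ℝ) (hη0 : 0 < η) (hη1 : η ≤ 1 / 2) (k : ℕ) (hk : 1 ≤ k)
    (h2 : (2 : ℝ) ≤ (k : ℝ) ^ (1 - η)) (h3 : (k : ℝ) ^ (-η) ≤ 1 / 2)
    (h : ∀ d : ℕ, 0 < d → Even d →
      (d : ℝ) ≤ (1 - (k : ℝ) ^ (-η)) * min (Jf k : ℝ) ((k : ℝ) ^ (1 + η)) → d ∈ gaps k) :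
    Good η k := by
  have hkr : (1 : ℝ) ≤ k := by exact_mod_cast hk
  have hk0 : (0 : ℝ) < k := by linarith
  have hM : (((gaps k).sup id : ℕ) : ℝ) ≤ (Jf k : ℝ) := by exact_mod_cast sup_gaps_le k
  have hmin : min (((gaps k).sup id : ℕ) : ℝ) ((k : ℝ) ^ (1 + η)) ≤
      min (Jf k : ℝ) ((k : ℝ) ^ (1 + η)) := min_le_min_right _ hM
  have hu0 : 0 < (k : ℝ) ^ (-η) := Real.rpow_pos_of_pos hk0 _
  refine ⟨fun d hd0 hd2 hd => h d hd0 hd2 (hd.trans ?_), ?_⟩
  · exact mul_le_mul_of_nonneg_left hmin (by linarith)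
  · have h4 := card_gaps_ge k _ h
    refine le_trans (mul_le_mul_of_nonneg_left hmin (by linarith)) (le_trans ?_ h4)
    have hJX : (k : ℝ) ≤ (Jf k : ℝ) := by
      have := succ_le_Jf k
      exact_mod_cast (by omega : k ≤ Jf k)
    have hXP : (k : ℝ) ≤ (k : ℝ) ^ (1 + η) := by
      conv_lhs => rw [← Real.rpow_one (k : ℝ)]
      exact Real.rpow_le_rpow_of_exponent_le hkr (by linarith)
    have h5 : (k : ℝ) ≤ min (Jf k : ℝ) ((k : ℝ) ^ (1 + η)) := le_min hJX hXP
    have h6 : (2 : ℝ) ≤ (k : ℝ) ^ (-η) * min (Jf k : ℝ) ((k : ℝ) ^ (1 + η)) := by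
      have h7 := mul_le_mul_of_nonneg_left h5 hu0.le
      have h8 : (k : ℝ) ^ (-η) * k = (k : ℝ) ^ (1 - η) := by
        conv_lhs => rw [← Real.rpow_one (k : ℝ), ← Real.rpow_mul hk0.le, ← Real.rpow_add hk0]
        congr 1
        ring
      rw [h8] at h7
      linarith
    nlinarith

end Pool.Agent.Lib.MP_45349e_nt.AA
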