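import Mathlib
import Pool.Agent.Lib.MP_45349e_nt.AA.Almost

/-!
# Almost all primorials have all even gaps up to nearly the largest one (in the range `k^(1+η)`)
-/

open Finset Filter

namespace Pool.Agent.Lib.MP_45349e_nt.AA

/-- comparison of the two thresholds -/
theorem threshold_le (η : ℝ) (hη0 : 0 < η) (hη1 : η ≤ 1 / 40) (Z k k' J J' δ : ℝ)
    (hZ : 1 ≤ Z) (hkZ : k ≤ Z) (hk1 : 1 ≤ k) (hk'2 : k / 2 ≤ k') (hk'1 : 1 ≤ k')
    (hk'Z : Z ^ (1 - η / 3) / 2 ≤ k')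
    (hδ : δ = Z ^ (-(η / 2))) (hc5 : 3 * Z ^ (-(η / 2)) ≤ Z ^ (-(η / 4)))
    (hc6 : 4 ≤ k ^ (3 * η / 4)) (hJ' : 0 ≤ J') (hJ : J ≤ (1 + δ) * J') :
    (1 - k ^ (-(η / 4))) * min J (k ^ (1 + η / 4)) ≤
      (1 - k' ^ (-η)) * min J' (k' ^ (1 + η)) := by
  have hZ0 : 0 < Z := by linarith
  have hk0 : 0 < k := by linarith
  have hk'0 : 0 < k' := by linarith
  set u := k ^ (-(η / 4)) with hu
  set v := k' ^ (-η) with hv
  have hu1 : u ≤ 1 := Real.rpow_le_one_of_one_le_of_nonpos hk1 (by linarith)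
  have hv1 : v ≤ 1 := Real.rpow_le_one_of_one_le_of_nonpos hk'1 (by linarith)
  have hu0 : 0 < u := Real.rpow_pos_of_pos hk0 _
  have hv0 : 0 < v := Real.rpow_pos_of_pos hk'0 _
  have hδ0 : 0 < δ := by rw [hδ]; exact Real.rpow_pos_of_pos hZ0 _
  have huZ : Z ^ (-(η / 4)) ≤ u :=
    Real.rpow_le_rpow_of_nonpos hk0 hkZ (by linarith)
  have hvZ : v ≤ 2 * Z ^ (-(η / 2)) := by
    have hpos : 0 < Z ^ (1 - η / 3) / 2 := by positivity
    have h1 : v ≤ (Z ^ (1 - η / 3) / 2) ^ (-η) :=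
      Real.rpow_le_rpow_of_nonpos hpos hk'Z (by linarith)
    refine h1.trans ?_
    rw [Real.div_rpow (by positivity) (by norm_num), ← Real.rpow_mul hZ0.le]
    have h2 : (1 : ℝ) / 2 ≤ (2 : ℝ) ^ (-η) := by
      have : (2 : ℝ) ^ (-1 : ℝ) ≤ (2 : ℝ) ^ (-η) :=
        Real.rpow_le_rpow_of_exponent_le (by norm_num) (by linarith)
      rw [Real.rpow_neg_one] at this
      linarith
    have h3 : Z ^ ((1 - η / 3) * -η) ≤ Z ^ (-(η / 2)) :=
      Real.rpow_le_rpow_of_exponent_le hZ (by nlinarith)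
    rw [div_le_iff₀ (by positivity)]
    have h4 : 0 < Z ^ (-(η / 2)) := by positivity
    nlinarith
  have hkey : δ + v ≤ u := by rw [hδ]; linarith
  rw [mul_min_of_nonneg _ _ (by linarith), mul_min_of_nonneg _ _ (by linarith)]
  refine min_le_min ?_ ?_
  · have h1 : (1 - u) * J ≤ (1 - u) * ((1 + δ) * J') :=
      mul_le_mul_of_nonneg_left hJ (by linarith)
    refine h1.trans ?_
    rw [← mul_assoc]
    refine mul_le_mul_of_nonneg_right ?_ hJ'
    nlinarith [mul_pos hu0 hδ0]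
  · have h1 : k ^ (1 + η / 4) ≤ k' ^ (1 + η) := by
      have h2 : (k / 2) ^ (1 + η) ≤ k' ^ (1 + η) :=
        Real.rpow_le_rpow (by positivity) hk'2 (by linarith)
      refine le_trans ?_ h2
      rw [Real.div_rpow hk0.le (by norm_num), le_div_iff₀ (by positivity)]
      have h3 : (2 : ℝ) ^ (1 + η) ≤ 4 := by
        have : (2 : ℝ) ^ (1 + η) ≤ (2 : ℝ) ^ (2 : ℝ) :=
          Real.rpow_le_rpow_of_exponent_le (by norm_num) (by linarith)
        rw [Real.rpow_two] at this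
        linarith
      have h4 : k ^ (1 + η) = k ^ (1 + η / 4) * k ^ (3 * η / 4) := by
        rw [← Real.rpow_add hk0]; congr 1; ring
      rw [h4]
      refine mul_le_mul_of_nonneg_left (h3.trans hc6) (by positivity)
    refine mul_le_mul (by linarith) h1 (by positivity) (by linarith)

theorem main : ∃ η : ℝ, 0 < η ∧
    (∃ k₀ : ℕ, ∀ k : ℕ, k₀ ≤ k → ∀ r : ℕ, (k : ℝ) ^ (1 - η) ≤ r → ∀ d : ℕ, 0 < d → Even d →
      (d : ℝ) ≤ (1 - (k : ℝ) ^ (-η)) * min (((gaps k).sup id : ℕ) : ℝ) ((k : ℝ) ^ (1 + η)) →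
      d ∈ gaps (k + r)) ∧
    ∃ K₀ : ℕ, ∀ K : ℕ, K₀ ≤ K → ∀ E : Finset ℕ, (∀ k ∈ E, 1 ≤ k ∧ k ≤ K ∧ ¬ Good η k) →
      (E.card : ℝ) ≤ (K : ℝ) ^ (1 - η) := by
  classical
  obtain ⟨η, hη0, hη1, k₀, hcore⟩ := coreJ
  obtain ⟨B, hB, hlogJ⟩ := log_Jf_le
  refine ⟨η / 4, by linarith, ?_, ?_⟩
  · refine ⟨max k₀ 1, fun k hk r hr d hd0 hd2 hd => ?_⟩
    have hk1 : 1 ≤ k := (le_max_right _ _).trans hk
    have hkr : (1 : ℝ) ≤ k := by exact_mod_cast hk1
    have hk0 : (0 : ℝ) < k := by linarith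
    refine hcore k ((le_max_left _ _).trans hk) r ?_ d hd0 hd2 (hd.trans ?_)
    · refine le_trans ?_ hr
      exact Real.rpow_le_rpow_of_exponent_le hkr (by linarith)
    · have h1 : (k : ℝ) ^ (-η) ≤ (k : ℝ) ^ (-(η / 4)) :=
        Real.rpow_le_rpow_of_exponent_le hkr (by linarith)
      have h2 : (k : ℝ) ^ (-η) ≤ 1 := Real.rpow_le_one_of_one_le_of_nonpos hkr (by linarith)
      have h3 : (((gaps k).sup id : ℕ) : ℝ) ≤ (Jf k : ℝ) := by exact_mod_cast sup_gaps_le k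
      have h4 : (k : ℝ) ^ (1 + η / 4) ≤ (k : ℝ) ^ (1 + η) :=
        Real.rpow_le_rpow_of_exponent_le hkr (by linarith)
      refine mul_le_mul (by linarith) (min_le_min h3 h4) ?_ (by linarith)
      positivity
  · have E1 := eventually_ge_atTop 1 (α := ℕ)
    have E2 := ev_ge 1 (1 - η) (by linarith)
    have E3 := ev_pow 4 (1 - η) (1 - η / 3) (by linarith)
    have E4 := ev_pow 4 (1 - η / 3) (1 - η / 4) (by linarith)
    have E5 := ev_ge (2 * ((k₀ : ℝ) + 1)) (1 - η / 3) (by linarith)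
    have E6 := ev_pow 3 (-(η / 2)) (-(η / 4)) (by linarith)
    have E7 := ev_ge 4 (3 * η / 8) (by linarith)
    have E8 := ev_log (8 * B) (η / 4) (by linarith) (by linarith)
    have E9 := ev_ge 2 (η / 8) (by linarith)
    obtain ⟨K₀, hK₀⟩ := eventually_atTop.mp
      (E1.and (E2.and (E3.and (E4.and (E5.and (E6.and (E7.and (E8.and E9))))))))
    refine ⟨K₀, fun K hK E hE => ?_⟩
    obtain ⟨e1, e2, e3, e4, e5, e6, e7, e8, e9⟩ := hK₀ K hK
    set Z : ℝ := (K : ℝ) with hZdef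
    have hZ1 : 1 ≤ Z := by rw [hZdef]; exact_mod_cast e1
    have hZ0 : 0 < Z := by linarith
    set R : ℕ := ⌈Z ^ (1 - η)⌉₊ with hR
    set A : ℕ := ⌈Z ^ (1 - η / 3)⌉₊ with hA
    set δ : ℝ := Z ^ (-(η / 2)) with hδ
    have hRl : Z ^ (1 - η) ≤ R := Nat.le_ceil _
    have hRu : (R : ℝ) ≤ 2 * Z ^ (1 - η) := by
      have := (Nat.ceil_lt_add_one (a := Z ^ (1 - η)) (by positivity)).le
      linarith
    have hAl : Z ^ (1 - η / 3) ≤ A := Nat.le_ceil _
    have hZ3 : 1 ≤ Z ^ (1 - η / 3) := Real.one_le_rpow hZ1 (by linarith)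
    have hAu : (A : ℝ) ≤ 2 * Z ^ (1 - η / 3) := by
      have := (Nat.ceil_lt_add_one (a := Z ^ (1 - η / 3)) (by positivity)).le
      linarith
    have hAZ : A ≤ K := by
      have h1 : Z ^ (1 - η / 3) ≤ Z := by
        conv_rhs => rw [← Real.rpow_one Z]
        exact Real.rpow_le_rpow_of_exponent_le hZ1 (by linarith)
      exact Nat.ceil_le.mpr h1
    have hRA : (R : ℝ) ≤ A / 2 := by linarith
    have hδ0 : 0 < δ := Real.rpow_pos_of_pos hZ0 _
    have hδ1 : δ ≤ 1 := Real.rpow_le_one_of_one_le_of_nonpos hZ1 (by linarith)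
    set D := (Ioc A K).filter (fun k => (1 + δ) * (Jf (k - R) : ℝ) < (Jf k : ℝ)) with hD
    have hsub : E ⊆ Icc 1 A ∪ D := by
      intro k hkE
      obtain ⟨hk1, hkK, hbad⟩ := hE k hkE
      rw [mem_union, mem_Icc, hD, mem_filter, mem_Ioc]
      by_contra hcon
      push Not at hcon
      have hkA : A < k := by
        by_contra h
        exact absurd (hcon.1 hk1) (by omega)
      have hJ := hcon.2 ⟨hkA, hkK⟩
      apply hbad
      have hkAr : (A : ℝ) ≤ k := by exact_mod_cast hkA.le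
      have hkZ : (k : ℝ) ≤ Z := by rw [hZdef]; exact_mod_cast hkK
      have hkr1 : (1 : ℝ) ≤ k := by exact_mod_cast hk1
      have hkr0 : (0 : ℝ) < k := by linarith
      have hRk : R ≤ k := by
        have : (R : ℝ) ≤ k := by
          have : (0 : ℝ) ≤ A := Nat.cast_nonneg _
          linarith
        exact_mod_cast this
      have hk'cast : ((k - R : ℕ) : ℝ) = (k : ℝ) - R := by rw [Nat.cast_sub hRk]
      have hk'2 : (k : ℝ) / 2 ≤ ((k - R : ℕ) : ℝ) := by rw [hk'cast]; linarith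
      have hk'Z : Z ^ (1 - η / 3) / 2 ≤ ((k - R : ℕ) : ℝ) := by linarith
      have hk'k0 : (k₀ : ℝ) + 1 ≤ ((k - R : ℕ) : ℝ) := by linarith
      have hk'k0' : k₀ ≤ k - R := by
        have : (k₀ : ℝ) ≤ ((k - R : ℕ) : ℝ) := by linarith
        exact_mod_cast this
      have hk'1 : (1 : ℝ) ≤ ((k - R : ℕ) : ℝ) := by
        have : (0 : ℝ) ≤ k₀ := Nat.cast_nonneg _
        linarith
      -- `k ≥ Z^(1/2)`
      have hkhalf : Z ^ ((1 : ℝ) / 2) ≤ k := by
        have h1 : Z ^ ((1 : ℝ) / 2) ≤ Z ^ (1 - η / 3) :=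
          Real.rpow_le_rpow_of_exponent_le hZ1 (by linarith)
        linarith
      have hZh : 0 ≤ Z ^ ((1 : ℝ) / 2) := by positivity
      have hc6 : 4 ≤ (k : ℝ) ^ (3 * η / 4) := by
        have h1 := Real.rpow_le_rpow hZh hkhalf (show 0 ≤ 3 * η / 4 by linarith)
        rw [← Real.rpow_mul hZ0.le] at h1
        have h2 : (1 : ℝ) / 2 * (3 * η / 4) = 3 * η / 8 := by ring
        rw [h2] at h1
        linarith
      have hc8 : 2 ≤ (k : ℝ) ^ (η / 4) := by
        have h1 := Real.rpow_le_rpow hZh hkhalf (show 0 ≤ η / 4 by linarith)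
        rw [← Real.rpow_mul hZ0.le] at h1
        have h2 : (1 : ℝ) / 2 * (η / 4) = η / 8 := by ring
        rw [h2] at h1
        linarith
      have hk'nn : (0 : ℝ) ≤ (Jf (k - R) : ℝ) := Nat.cast_nonneg _
      have hthr := threshold_le η hη0 hη1 Z k ((k - R : ℕ) : ℝ) (Jf k) (Jf (k - R)) δ hZ1 hkZ hkr1
        hk'2 hk'1 hk'Z hδ e6 hc6 hk'nn hJ
      refine good_of_all (η / 4) (by linarith) (by linarith) k hk1 ?_ ?_ ?_
      · refine hc8.trans ?_
        exact Real.rpow_le_rpow_of_exponent_le hkr1 (by linarith)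
      · rw [Real.rpow_neg hkr0.le, one_div]
        exact inv_anti₀ (by norm_num) hc8
      · intro d hd0 hd2 hd
        have h1 := hcore (k - R) hk'k0' R ?_ d hd0 hd2 (hd.trans hthr)
        · rwa [Nat.sub_add_cancel hRk] at h1
        · refine le_trans ?_ hRl
          refine Real.rpow_le_rpow (by positivity) ?_ (by linarith)
          have : (0 : ℝ) ≤ R := Nat.cast_nonneg _
          rw [hk'cast]
          linarith
    have hcard := Finset.card_le_card hsub
    have hcard2 := hcard.trans (Finset.card_union_le _ _)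
    rw [Nat.card_Icc, Nat.add_sub_cancel] at hcard2
    have hcr : (E.card : ℝ) ≤ A + D.card := by exact_mod_cast hcard2
    have hjump := card_jump_le A K R hAZ δ hδ0 hδ1
    rw [← hD] at hjump
    have hlJ := hlogJ K e1
    have hDle : (D.card : ℝ) ≤ Z ^ (1 - η / 4) / 2 := by
      have h1 : (D.card : ℝ) * (δ / 2) ≤ (2 * Z ^ (1 - η)) * (B * (1 + Real.log Z)) := by
        refine hjump.trans (mul_le_mul hRu hlJ ?_ (by positivity))
        refine Real.log_nonneg ?_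
        have := succ_le_Jf K
        exact_mod_cast (by omega : 1 ≤ Jf K)
      have h2 : (D.card : ℝ) ≤ (2 * Z ^ (1 - η)) * (B * (1 + Real.log Z)) * (2 * Z ^ (η / 2)) := by
        have h3 : (D.card : ℝ) = (D.card : ℝ) * (δ / 2) * (2 * Z ^ (η / 2)) := by
          have h4 : δ * Z ^ (η / 2) = 1 := by
            rw [hδ, ← Real.rpow_add hZ0]
            rw [show -(η / 2) + η / 2 = 0 by ring, Real.rpow_zero]
          calc (D.card : ℝ) = (D.card : ℝ) * (δ * Z ^ (η / 2)) := by rw [h4, mul_one]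
            _ = _ := by ring
        rw [h3]
        exact mul_le_mul_of_nonneg_right h1 (by positivity)
      have h5 : (2 * Z ^ (1 - η)) * (B * (1 + Real.log Z)) * (2 * Z ^ (η / 2)) =
          (8 * B * (1 + Real.log Z)) * Z ^ (1 - η / 2) / 2 := by
        have h6 : Z ^ (1 - η / 2) = Z ^ (1 - η) * Z ^ (η / 2) := by
          rw [← Real.rpow_add hZ0]; congr 1; ring
        rw [h6]; ring
      rw [h5] at h2
      have h7 : (8 * B * (1 + Real.log Z)) * Z ^ (1 - η / 2) ≤ Z ^ (η / 4) * Z ^ (1 - η / 2) :=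
        mul_le_mul_of_nonneg_right e8 (by positivity)
      have h8 : Z ^ (η / 4) * Z ^ (1 - η / 2) = Z ^ (1 - η / 4) := by
        rw [← Real.rpow_add hZ0]; congr 1; ring
      rw [h8] at h7
      linarith
    linarith

end Pool.Agent.Lib.MP_45349e_nt.AA
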